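import Pool.Agent.Q212.ZC5

/-!
# Quasi-metrics on compact Hausdorff spaces: cluster points and the uniformity
-/

set_option maxHeartbeats 1000000
set_option linter.all false

namespace Pool.Agent.Q211.ZQ

open FirstOrder FirstOrder.Language
open Pool.Agent.Helper672.ZFA
open Pool.Agent.H310
open Pool.Agent.Q212.ZA
open Pool.Agent.Q212.ZC

universe u u₁ u₂ u₃ u₄

variable {M : Type u} [L.Structure M] [hM : IsModel M]
variable {α : Type u₁} {R : Type u₃} [ITy M α] [ITy M R]

section

variable [Field R] [LinearOrder R] [IsStrictOrderedRing R] [IAdd M R] [IMul M R] [ILE M R]

variable (M) in
/-- Halving sequences. -/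
structure HS (q : INat M → R) : Prop where
  int : IntF M q
  pos : ∀ n, 0 < q n
  half : ∀ n, q n.succ + q n.succ = q n
  lim : ∀ ε, 0 < ε → ∃ n, q n < ε

theorem HS.succ_lt {q : INat M → R} (h : HS M q) (n : INat M) : q n.succ < q n := by
  have h1 := h.half n
  have h2 := h.pos n.succ
  linarith

theorem HS.anti {q : INat M → R} (h : HS M q) {m n : INat M} (hmn : m < n) : q n < q m := by
  have hi := h.int
  revert hmn
  refine INat.ind (p := fun n : INat M => m < n → q n < q m) (by (repeat' (first | with_reducible exact IntF.id | with_reducible exact IntF.fst' | with_reducible exact IntF.snd' | with_reducible exact IntF.const _ | with_reducible exact Int.const _ | assumption | with_reducible apply Int.and | with_reducible apply Int.or | with_reducible apply Int.not | with_reducible apply Int.imp | with_reducible apply Int.iff | with_reducible apply Int.ne | with_reducible apply Int.eq | with_reducible apply Int.mem | with_reducible apply Int.subset | with_reducible apply Int.ltN | with_reducible apply Int.leN | with_reducible apply Int.fin | with_reducible apply Int.unique | with_reducible apply Int.all | with_reducible apply Int.ex | with_reducible apply IntF.fst | with_reducible apply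 IntF.snd | with_reducible apply IntF.app | with_reducible apply IntF.ite | with_reducible apply IntF.sep | with_reducible apply IntF.lam | with_reducible apply IntF.insert | with_reducible apply IntF.singleton | with_reducible apply IntF.union | with_reducible apply IntF.inter | with_reducible apply IntF.sdiff | with_reducible apply IntF.isUnion | with_reducible apply IntF.iimage | with_reducible apply IntF.the | with_reducible apply IntF.irec | with_reducible_and_instances apply IntF.add | with_reducible_and_instances apply IntF.mul | with_reducible apply IntF.succ | with_reducible apply IntF.val | with_reducible_and_instances apply Pool.Agent.Helper672.ZFA.Int.le | with_reducible_and_instances apply Pool.Agent.Helper672.ZFA.Int.lt | with_reducible_and_instances apply IntF.sub | with_reducible_and_instances apply IntF.neg | with_reducible_and_instances apply IntF.inv | with_reducible_and_instances apply IntF.div | with_reducible apply IntF.mk | (with_reducible refine Int.comp ?_ ?_; assumption) | (with_reducible refine Int.comp₂ ?_ ?_ ?_; assumption) | (with_reducible refine Int.comp₃ ?_ ?_ ?_ ?_; assumption) | (with_reducible refine IntF.comp ?_ ?_; assumption) | (with_reducible refine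 IntF.comp₂ ?_ ?_ ?_; assumption) | (with_reducible refine IntF.comp₃ ?_ ?_ ?_ ?_; assumption) | (with_reducible refine Int.comp₄ ?_ ?_ ?_ ?_ ?_; assumption) | with_reducible apply IntF.pair))) ?_ ?_ n
  · intro h
    exact absurd h INat.not_lt_zero
  · intro k ih hk
    rcases (INat.lt_succ_iff.1 hk).lt_or_eq with h1 | rfl
    · exact (h.succ_lt k).trans (ih h1)
    · exact h.succ_lt m

theorem HS.mono {q : INat M → R} (h : HS M q) {m n : INat M} (hmn : m ≤ n) : q n ≤ q m := by
  rcases hmn.lt_or_eq with h1 | rfl
  · exact (h.anti h1).le
  · exact le_rfl

theorem HS.le_of {q : INat M → R} (h : HS M q) {m n : INat M} (hmn : q m ≤ q n) : n ≤ m := by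
  by_contra h1
  exact absurd (h.anti (not_le.1 h1)) (not_lt.2 hmn)

theorem exists_hs (hsup : Cpl M R) : ∃ q : INat M → R, HS M q := by
  have hF : IntF M (fun y : R => y / 2) := by (repeat' (first | with_reducible exact IntF.id | with_reducible exact IntF.fst' | with_reducible exact IntF.snd' | with_reducible exact IntF.const _ | with_reducible exact Int.const _ | assumption | with_reducible apply Int.and | with_reducible apply Int.or | with_reducible apply Int.not | with_reducible apply Int.imp | with_reducible apply Int.iff | with_reducible apply Int.ne | with_reducible apply Int.eq | with_reducible apply Int.mem | with_reducible apply Int.subset | with_reducible apply Int.ltN | with_reducible apply Int.leN | with_reducible apply Int.fin | with_reducible apply Int.unique | with_reducible apply Int.all | with_reducible apply Int.ex | with_reducible apply IntF.fst | with_reducible apply IntF.snd | with_reducible apply IntF.app | with_reducible apply IntF.ite | with_reducible apply IntF.sep | with_reducible apply IntF.lam | with_reducible apply IntF.insert | with_reducible apply IntF.singleton | with_reducible apply IntF.union | with_reducible apply IntF.inter | with_reducible apply IntF.sdiff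 | with_reducible apply IntF.isUnion | with_reducible apply IntF.iimage | with_reducible apply IntF.the | with_reducible apply IntF.irec | with_reducible_and_instances apply IntF.add | with_reducible_and_instances apply IntF.mul | with_reducible apply IntF.succ | with_reducible apply IntF.val | with_reducible_and_instances apply Pool.Agent.Helper672.ZFA.Int.le | with_reducible_and_instances apply Pool.Agent.Helper672.ZFA.Int.lt | with_reducible_and_instances apply IntF.sub | with_reducible_and_instances apply IntF.neg | with_reducible_and_instances apply IntF.inv | with_reducible_and_instances apply IntF.div | with_reducible apply IntF.mk | (with_reducible refine Int.comp ?_ ?_; assumption) | (with_reducible refine Int.comp₂ ?_ ?_ ?_; assumption) | (with_reducible refine Int.comp₃ ?_ ?_ ?_ ?_; assumption) | (with_reducible refine IntF.comp ?_ ?_; assumption) | (with_reducible refine IntF.comp₂ ?_ ?_ ?_; assumption) | (with_reducible refine IntF.comp₃ ?_ ?_ ?_ ?_; assumption) | (with_reducible refine Int.comp₄ ?_ ?_ ?_ ?_ ?_; assumption) | with_reducible apply IntF.pair))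
  have hq : IntF M (fun n : INat M => irec (1 : R) (fun _ y => y / 2) n) := by (repeat' (first | with_reducible exact IntF.id | with_reducible exact IntF.fst' | with_reducible exact IntF.snd' | with_reducible exact IntF.const _ | with_reducible exact Int.const _ | assumption | with_reducible apply Int.and | with_reducible apply Int.or | with_reducible apply Int.not | with_reducible apply Int.imp | with_reducible apply Int.iff | with_reducible apply Int.ne | with_reducible apply Int.eq | with_reducible apply Int.mem | with_reducible apply Int.subset | with_reducible apply Int.ltN | with_reducible apply Int.leN | with_reducible apply Int.fin | with_reducible apply Int.unique | with_reducible apply Int.all | with_reducible apply Int.ex | with_reducible apply IntF.fst | with_reducible apply IntF.snd | with_reducible apply IntF.app | with_reducible apply IntF.ite | with_reducible apply IntF.sep | with_reducible apply IntF.lam | with_reducible apply IntF.insert | with_reducible apply IntF.singleton | with_reducible apply IntF.union | with_reducible apply IntF.inter | with_reducible apply IntF.sdiff | with_reducible apply IntF.isUnion | with_reducible apply IntF.iimage | with_reducible apply IntF.the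 | with_reducible apply IntF.irec | with_reducible_and_instances apply IntF.add | with_reducible_and_instances apply IntF.mul | with_reducible apply IntF.succ | with_reducible apply IntF.val | with_reducible_and_instances apply Pool.Agent.Helper672.ZFA.Int.le | with_reducible_and_instances apply Pool.Agent.Helper672.ZFA.Int.lt | with_reducible_and_instances apply IntF.sub | with_reducible_and_instances apply IntF.neg | with_reducible_and_instances apply IntF.inv | with_reducible_and_instances apply IntF.div | with_reducible apply IntF.mk | (with_reducible refine Int.comp ?_ ?_; assumption) | (with_reducible refine Int.comp₂ ?_ ?_ ?_; assumption) | (with_reducible refine Int.comp₃ ?_ ?_ ?_ ?_; assumption) | (with_reducible refine IntF.comp ?_ ?_; assumption) | (with_reducible refine IntF.comp₂ ?_ ?_ ?_; assumption) | (with_reducible refine IntF.comp₃ ?_ ?_ ?_ ?_; assumption) | (with_reducible refine Int.comp₄ ?_ ?_ ?_ ?_ ?_; assumption) | with_reducible apply IntF.pair))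
  have hs : ∀ n : INat M, irec (1 : R) (fun _ y => y / 2) n.succ =
      irec (1 : R) (fun _ y => y / 2) n / 2 := fun n => irec_succ (by (repeat' (first | with_reducible exact IntF.id | with_reducible exact IntF.fst' | with_reducible exact IntF.snd' | with_reducible exact IntF.const _ | with_reducible exact Int.const _ | assumption | with_reducible apply Int.and | with_reducible apply Int.or | with_reducible apply Int.not | with_reducible apply Int.imp | with_reducible apply Int.iff | with_reducible apply Int.ne | with_reducible apply Int.eq | with_reducible apply Int.mem | with_reducible apply Int.subset | with_reducible apply Int.ltN | with_reducible apply Int.leN | with_reducible apply Int.fin | with_reducible apply Int.unique | with_reducible apply Int.all | with_reducible apply Int.ex | with_reducible apply IntF.fst | with_reducible apply IntF.snd | with_reducible apply IntF.app | with_reducible apply IntF.ite | with_reducible apply IntF.sep | with_reducible apply IntF.lam | with_reducible apply IntF.insert | with_reducible apply IntF.singleton | with_reducible apply IntF.union | with_reducible apply IntF.inter | with_reducible apply IntF.sdiff | with_reducible apply IntF.isUnion |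 with_reducible apply IntF.iimage | with_reducible apply IntF.the | with_reducible apply IntF.irec | with_reducible_and_instances apply IntF.add | with_reducible_and_instances apply IntF.mul | with_reducible apply IntF.succ | with_reducible apply IntF.val | with_reducible_and_instances apply Pool.Agent.Helper672.ZFA.Int.le | with_reducible_and_instances apply Pool.Agent.Helper672.ZFA.Int.lt | with_reducible_and_instances apply IntF.sub | with_reducible_and_instances apply IntF.neg | with_reducible_and_instances apply IntF.inv | with_reducible_and_instances apply IntF.div | with_reducible apply IntF.mk | (with_reducible refine Int.comp ?_ ?_; assumption) | (with_reducible refine Int.comp₂ ?_ ?_ ?_; assumption) | (with_reducible refine Int.comp₃ ?_ ?_ ?_ ?_; assumption) | (with_reducible refine IntF.comp ?_ ?_; assumption) | (with_reducible refine IntF.comp₂ ?_ ?_ ?_; assumption) | (with_reducible refine IntF.comp₃ ?_ ?_ ?_ ?_; assumption) | (with_reducible refine Int.comp₄ ?_ ?_ ?_ ?_ ?_; assumption) | with_reducible apply IntF.pair))) n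
  have h0 : irec (1 : R) (fun _ y => y / 2) (0 : INat M) = 1 := irec_zero (by (repeat' (first | with_reducible exact IntF.id | with_reducible exact IntF.fst' | with_reducible exact IntF.snd' | with_reducible exact IntF.const _ | with_reducible exact Int.const _ | assumption | with_reducible apply Int.and | with_reducible apply Int.or | with_reducible apply Int.not | with_reducible apply Int.imp | with_reducible apply Int.iff | with_reducible apply Int.ne | with_reducible apply Int.eq | with_reducible apply Int.mem | with_reducible apply Int.subset | with_reducible apply Int.ltN | with_reducible apply Int.leN | with_reducible apply Int.fin | with_reducible apply Int.unique | with_reducible apply Int.all | with_reducible apply Int.ex | with_reducible apply IntF.fst | with_reducible apply IntF.snd | with_reducible apply IntF.app | with_reducible apply IntF.ite | with_reducible apply IntF.sep | with_reducible apply IntF.lam | with_reducible apply IntF.insert | with_reducible apply IntF.singleton | with_reducible apply IntF.union | with_reducible apply IntF.inter | with_reducible apply IntF.sdiff | with_reducible apply IntF.isUnion | with_reducible apply IntF.iimage | with_reducible apply IntF.the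 | with_reducible apply IntF.irec | with_reducible_and_instances apply IntF.add | with_reducible_and_instances apply IntF.mul | with_reducible apply IntF.succ | with_reducible apply IntF.val | with_reducible_and_instances apply Pool.Agent.Helper672.ZFA.Int.le | with_reducible_and_instances apply Pool.Agent.Helper672.ZFA.Int.lt | with_reducible_and_instances apply IntF.sub | with_reducible_and_instances apply IntF.neg | with_reducible_and_instances apply IntF.inv | with_reducible_and_instances apply IntF.div | with_reducible apply IntF.mk | (with_reducible refine Int.comp ?_ ?_; assumption) | (with_reducible refine Int.comp₂ ?_ ?_ ?_; assumption) | (with_reducible refine Int.comp₃ ?_ ?_ ?_ ?_; assumption) | (with_reducible refine IntF.comp ?_ ?_; assumption) | (with_reducible refine IntF.comp₂ ?_ ?_ ?_; assumption) | (with_reducible refine IntF.comp₃ ?_ ?_ ?_ ?_; assumption) | (with_reducible refine Int.comp₄ ?_ ?_ ?_ ?_ ?_; assumption) | with_reducible apply IntF.pair)))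
  have hpos : ∀ n : INat M, 0 < irec (1 : R) (fun _ y => y / 2) n := by
    refine INat.ind (by (repeat' (first | with_reducible exact IntF.id | with_reducible exact IntF.fst' | with_reducible exact IntF.snd' | with_reducible exact IntF.const _ | with_reducible exact Int.const _ | assumption | with_reducible apply Int.and | with_reducible apply Int.or | with_reducible apply Int.not | with_reducible apply Int.imp | with_reducible apply Int.iff | with_reducible apply Int.ne | with_reducible apply Int.eq | with_reducible apply Int.mem | with_reducible apply Int.subset | with_reducible apply Int.ltN | with_reducible apply Int.leN | with_reducible apply Int.fin | with_reducible apply Int.unique | with_reducible apply Int.all | with_reducible apply Int.ex | with_reducible apply IntF.fst | with_reducible apply IntF.snd | with_reducible apply IntF.app | with_reducible apply IntF.ite | with_reducible apply IntF.sep | with_reducible apply IntF.lam | with_reducible apply IntF.insert | with_reducible apply IntF.singleton | with_reducible apply IntF.union | with_reducible apply IntF.inter | with_reducible apply IntF.sdiff | with_reducible apply IntF.isUnion | with_reducible apply IntF.iimage | with_reducible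 apply IntF.the | with_reducible apply IntF.irec | with_reducible_and_instances apply IntF.add | with_reducible_and_instances apply IntF.mul | with_reducible apply IntF.succ | with_reducible apply IntF.val | with_reducible_and_instances apply Pool.Agent.Helper672.ZFA.Int.le | with_reducible_and_instances apply Pool.Agent.Helper672.ZFA.Int.lt | with_reducible_and_instances apply IntF.sub | with_reducible_and_instances apply IntF.neg | with_reducible_and_instances apply IntF.inv | with_reducible_and_instances apply IntF.div | with_reducible apply IntF.mk | (with_reducible refine Int.comp ?_ ?_; assumption) | (with_reducible refine Int.comp₂ ?_ ?_ ?_; assumption) | (with_reducible refine Int.comp₃ ?_ ?_ ?_ ?_; assumption) | (with_reducible refine IntF.comp ?_ ?_; assumption) | (with_reducible refine IntF.comp₂ ?_ ?_ ?_; assumption) | (with_reducible refine IntF.comp₃ ?_ ?_ ?_ ?_; assumption) | (with_reducible refine Int.comp₄ ?_ ?_ ?_ ?_ ?_; assumption) | with_reducible apply IntF.pair))) ?_ ?_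
    · rw [h0]
      exact one_pos
    · intro n ih
      rw [hs]
      exact half_pos ih
  refine ⟨_, hq, hpos, fun n => ?_, fun ε hε => ?_⟩
  · rw [hs]
    ring
  · by_contra hc
    push Not at hc
    have hS : Int M (fun x : R => ∀ n : INat M, x ≤ irec (1 : R) (fun _ y => y / 2) n) := by (repeat' (first | with_reducible exact IntF.id | with_reducible exact IntF.fst' | with_reducible exact IntF.snd' | with_reducible exact IntF.const _ | with_reducible exact Int.const _ | assumption | with_reducible apply Int.and | with_reducible apply Int.or | with_reducible apply Int.not | with_reducible apply Int.imp | with_reducible apply Int.iff | with_reducible apply Int.ne | with_reducible apply Int.eq | with_reducible apply Int.mem | with_reducible apply Int.subset | with_reducible apply Int.ltN | with_reducible apply Int.leN | with_reducible apply Int.fin | with_reducible apply Int.unique | with_reducible apply Int.all | with_reducible apply Int.ex | with_reducible apply IntF.fst | with_reducible apply IntF.snd | with_reducible apply IntF.app | with_reducible apply IntF.ite | with_reducible apply IntF.sep | with_reducible apply IntF.lam | with_reducible apply IntF.insert | with_reducible apply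 IntF.singleton | with_reducible apply IntF.union | with_reducible apply IntF.inter | with_reducible apply IntF.sdiff | with_reducible apply IntF.isUnion | with_reducible apply IntF.iimage | with_reducible apply IntF.the | with_reducible apply IntF.irec | with_reducible_and_instances apply IntF.add | with_reducible_and_instances apply IntF.mul | with_reducible apply IntF.succ | with_reducible apply IntF.val | with_reducible_and_instances apply Pool.Agent.Helper672.ZFA.Int.le | with_reducible_and_instances apply Pool.Agent.Helper672.ZFA.Int.lt | with_reducible_and_instances apply IntF.sub | with_reducible_and_instances apply IntF.neg | with_reducible_and_instances apply IntF.inv | with_reducible_and_instances apply IntF.div | with_reducible apply IntF.mk | (with_reducible refine Int.comp ?_ ?_; assumption) | (with_reducible refine Int.comp₂ ?_ ?_ ?_; assumption) | (with_reducible refine Int.comp₃ ?_ ?_ ?_ ?_; assumption) | (with_reducible refine IntF.comp ?_ ?_; assumption) | (with_reducible refine IntF.comp₂ ?_ ?_ ?_; assumption) | (with_reducible refine IntF.comp₃ ?_ ?_ ?_ ?_; assumption) | (with_reducible refine Int.comp₄ ?_ ?_ ?_ ?_ ?_; assumption) | with_reducible apply IntF.pair))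
    obtain ⟨c, h1, h2⟩ := hsup (sep M fun x : R => ∀ n : INat M,
      x ≤ irec (1 : R) (fun _ y => y / 2) n) ⟨ε, (mem_sep hS).2 hc⟩ ⟨1, fun x hx => by
        have := (mem_sep hS).1 hx 0
        rwa [h0] at this⟩
    have h3 : ∀ n : INat M, c ≤ irec (1 : R) (fun _ y => y / 2) n := fun n =>
      h2 _ fun x hx => (mem_sep hS).1 hx n
    have h4 : c + c ≤ c := h1 _ ((mem_sep hS).2 fun n => by
      have := h3 n.succ
      rw [hs] at this
      linarith)
    have h5 : ε ≤ c := h1 _ ((mem_sep hS).2 hc)
    linarith

variable (M) in
/-- Quasi-metrics of compact Hausdorff spaces. -/
structure QM (d : α → α → R) : Prop where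
  int : IntF M (fun q : α × α => d q.1 q.2)
  nonneg : ∀ a b, 0 ≤ d a b
  self : ∀ a, d a a = 0
  tri : ∀ a b c, d a c ≤ d a b + d b c
  haus : ∀ a b, a ≠ b → ∃ ε, 0 < ε ∧ ∀ z, ¬ (d a z < ε ∧ d b z < ε)
  cpt : ∀ C : IPow M (IPow M α),
    (∀ U, U ∈ C → ∀ x, x ∈ U → ∃ ε, 0 < ε ∧ ∀ y, d x y < ε → y ∈ U) →
    (∀ x, ∃ U, U ∈ C ∧ x ∈ U) →
    ∃ C' : IPow M (IPow M α), IFin C' ∧ C' ⊆ C ∧ ∀ x, ∃ U, U ∈ C' ∧ x ∈ U

variable {d : α → α → R} {q : INat M → R}

/-- Decreasing sequences of nonempty sets have cluster points. -/
theorem QM.cluster (hd : QM M d) (hq : HS M q) {P : INat M → α → Prop}
    (hP : Int M (fun c : INat M × α => P c.1 c.2)) (hdec : ∀ m n, m ≤ n → ∀ x, P n x → P m x)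
    (hne : ∀ n, ∃ x, P n x) : ∃ x, ∀ n, ∃ a, P n a ∧ d x a < q n := by
  have hqi := hq.int
  have hdi : IntF M (fun q : α × α => d q.1 q.2) := hd.int
  by_contra hc
  push Not at hc
  have hI : Int M (fun U : IPow M α => (∀ x, x ∈ U → ∃ ε, 0 < ε ∧ ∀ y, d x y < ε → y ∈ U) ∧
      ∃ n, ∀ a, a ∈ U → ¬ P n a) := by (repeat' (first | with_reducible exact IntF.id | with_reducible exact IntF.fst' | with_reducible exact IntF.snd' | with_reducible exact IntF.const _ | with_reducible exact Int.const _ | assumption | with_reducible apply Int.and | with_reducible apply Int.or | with_reducible apply Int.not | with_reducible apply Int.imp | with_reducible apply Int.iff | with_reducible apply Int.ne | with_reducible apply Int.eq | with_reducible apply Int.mem | with_reducible apply Int.subset | with_reducible apply Int.ltN | with_reducible apply Int.leN | with_reducible apply Int.fin | with_reducible apply Int.unique | with_reducible apply Int.all | with_reducible apply Int.ex | with_reducible apply IntF.fst | with_reducible apply IntF.snd | with_reducible apply IntF.app | with_reducible apply IntF.ite | with_reducible apply IntF.sep | with_reducible apply IntF.lam | with_reducible apply IntF.insert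 | with_reducible apply IntF.singleton | with_reducible apply IntF.union | with_reducible apply IntF.inter | with_reducible apply IntF.sdiff | with_reducible apply IntF.isUnion | with_reducible apply IntF.iimage | with_reducible apply IntF.the | with_reducible apply IntF.irec | with_reducible_and_instances apply IntF.add | with_reducible_and_instances apply IntF.mul | with_reducible apply IntF.succ | with_reducible apply IntF.val | with_reducible_and_instances apply Pool.Agent.Helper672.ZFA.Int.le | with_reducible_and_instances apply Pool.Agent.Helper672.ZFA.Int.lt | with_reducible_and_instances apply IntF.sub | with_reducible_and_instances apply IntF.neg | with_reducible_and_instances apply IntF.inv | with_reducible_and_instances apply IntF.div | with_reducible apply IntF.mk | (with_reducible refine Int.comp ?_ ?_; assumption) | (with_reducible refine Int.comp₂ ?_ ?_ ?_; assumption) | (with_reducible refine Int.comp₃ ?_ ?_ ?_ ?_; assumption) | (with_reducible refine IntF.comp ?_ ?_; assumption) | (with_reducible refine IntF.comp₂ ?_ ?_ ?_; assumption) | (with_reducible refine IntF.comp₃ ?_ ?_ ?_ ?_; assumption) | (with_reducible refine Int.comp₄ ?_ ?_ ?_ ?_ ?_; assumption) | with_reducible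 apply IntF.pair))
  obtain ⟨C', h1, h2, h3⟩ := hd.cpt (sep M fun U : IPow M α =>
    (∀ x, x ∈ U → ∃ ε, 0 < ε ∧ ∀ y, d x y < ε → y ∈ U) ∧ ∃ n, ∀ a, a ∈ U → ¬ P n a)
    (fun U hU => ((mem_sep hI).1 hU).1) (fun x => by
      obtain ⟨n, hn⟩ := hc x
      have hB : Int M (fun y => d x y < q n) := by
        have := hdi.slice x
        (repeat' (first | with_reducible exact IntF.id | with_reducible exact IntF.fst' | with_reducible exact IntF.snd' | with_reducible exact IntF.const _ | with_reducible exact Int.const _ | assumption | with_reducible apply Int.and | with_reducible apply Int.or | with_reducible apply Int.not | with_reducible apply Int.imp | with_reducible apply Int.iff | with_reducible apply Int.ne | with_reducible apply Int.eq | with_reducible apply Int.mem | with_reducible apply Int.subset | with_reducible apply Int.ltN | with_reducible apply Int.leN | with_reducible apply Int.fin | with_reducible apply Int.unique | with_reducible apply Int.all | with_reducible apply Int.ex | with_reducible apply IntF.fst | with_reducible apply IntF.snd | with_reducible apply IntF.app | with_reducible apply IntF.ite | with_reducible apply IntF.sep | with_reducible apply IntF.lam | with_reducible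 apply IntF.insert | with_reducible apply IntF.singleton | with_reducible apply IntF.union | with_reducible apply IntF.inter | with_reducible apply IntF.sdiff | with_reducible apply IntF.isUnion | with_reducible apply IntF.iimage | with_reducible apply IntF.the | with_reducible apply IntF.irec | with_reducible_and_instances apply IntF.add | with_reducible_and_instances apply IntF.mul | with_reducible apply IntF.succ | with_reducible apply IntF.val | with_reducible_and_instances apply Pool.Agent.Helper672.ZFA.Int.le | with_reducible_and_instances apply Pool.Agent.Helper672.ZFA.Int.lt | with_reducible_and_instances apply IntF.sub | with_reducible_and_instances apply IntF.neg | with_reducible_and_instances apply IntF.inv | with_reducible_and_instances apply IntF.div | with_reducible apply IntF.mk | (with_reducible refine Int.comp ?_ ?_; assumption) | (with_reducible refine Int.comp₂ ?_ ?_ ?_; assumption) | (with_reducible refine Int.comp₃ ?_ ?_ ?_ ?_; assumption) | (with_reducible refine IntF.comp ?_ ?_; assumption) | (with_reducible refine IntF.comp₂ ?_ ?_ ?_; assumption) | (with_reducible refine IntF.comp₃ ?_ ?_ ?_ ?_; assumption) | (with_reducible refine Int.comp₄ ?_ ?_ ?_ ?_ ?_; assumption)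 | with_reducible apply IntF.pair))
      refine ⟨sep M fun y => d x y < q n, (mem_sep hI).2 ⟨fun y hy => ?_, n, fun a ha hPa => ?_⟩,
        (mem_sep hB).2 ?_⟩
      · rw [mem_sep hB] at hy
        refine ⟨q n - d x y, by linarith, fun z hz => (mem_sep hB).2 ?_⟩
        have := hd.tri x y z
        linarith
      · rw [mem_sep hB] at ha
        exact absurd (hn a hPa) (not_le.2 ha)
      · rw [hd.self]
        exact hq.pos n)
  obtain ⟨N, hN⟩ := IFin.exists_bound (r := fun (U : IPow M α) (n : INat M) =>
    ∀ a, a ∈ U → ¬ P n a) (by (repeat' (first | with_reducible exact IntF.id | with_reducible exact IntF.fst' | with_reducible exact IntF.snd' | with_reducible exact IntF.const _ | with_reducible exact Int.const _ | assumption | with_reducible apply Int.and | with_reducible apply Int.or | with_reducible apply Int.not | with_reducible apply Int.imp | with_reducible apply Int.iff | with_reducible apply Int.ne | with_reducible apply Int.eq | with_reducible apply Int.mem | with_reducible apply Int.subset | with_reducible apply Int.ltN | with_reducible apply Int.leN | with_reducible apply Int.fin | with_reducible apply Int.unique | with_reducible apply Int.all | with_reducible apply Int.ex |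 with_reducible apply IntF.fst | with_reducible apply IntF.snd | with_reducible apply IntF.app | with_reducible apply IntF.ite | with_reducible apply IntF.sep | with_reducible apply IntF.lam | with_reducible apply IntF.insert | with_reducible apply IntF.singleton | with_reducible apply IntF.union | with_reducible apply IntF.inter | with_reducible apply IntF.sdiff | with_reducible apply IntF.isUnion | with_reducible apply IntF.iimage | with_reducible apply IntF.the | with_reducible apply IntF.irec | with_reducible_and_instances apply IntF.add | with_reducible_and_instances apply IntF.mul | with_reducible apply IntF.succ | with_reducible apply IntF.val | with_reducible_and_instances apply Pool.Agent.Helper672.ZFA.Int.le | with_reducible_and_instances apply Pool.Agent.Helper672.ZFA.Int.lt | with_reducible_and_instances apply IntF.sub | with_reducible_and_instances apply IntF.neg | with_reducible_and_instances apply IntF.inv | with_reducible_and_instances apply IntF.div | with_reducible apply IntF.mk | (with_reducible refine Int.comp ?_ ?_; assumption) | (with_reducible refine Int.comp₂ ?_ ?_ ?_; assumption) | (with_reducible refine Int.comp₃ ?_ ?_ ?_ ?_; assumption) | (with_reducible refine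 IntF.comp ?_ ?_; assumption) | (with_reducible refine IntF.comp₂ ?_ ?_ ?_; assumption) | (with_reducible refine IntF.comp₃ ?_ ?_ ?_ ?_; assumption) | (with_reducible refine Int.comp₄ ?_ ?_ ?_ ?_ ?_; assumption) | with_reducible apply IntF.pair))) (fun n₁ n₂ => ⟨max n₁ n₂, fun U hU a ha hPa => by
      rcases hU with hU | hU
      · exact hU a ha (hdec _ _ (le_max_left _ _) a hPa)
      · exact hU a ha (hdec _ _ (le_max_right _ _) a hPa)⟩) ⟨0⟩ h1 fun U hU =>
        ((mem_sep hI).1 (h2 U hU)).2
  obtain ⟨x, hx⟩ := hne N
  obtain ⟨U, hU, hxU⟩ := h3 x
  exact hN U hU x hxU hx

/-- Points whose neighborhoods are joined by small balls are equal. -/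
theorem QM.eq_of_near (hd : QM M d) (hq : HS M q) {y z : α}
    (h : ∀ n, ∃ x, (∃ u, d x u < q n ∧ d y u < q n) ∧ ∃ v, d x v < q n ∧ d z v < q n) :
    y = z := by
  have hqi := hq.int
  have hdi : IntF M (fun q : α × α => d q.1 q.2) := hd.int
  obtain ⟨x, hx⟩ := hd.cluster hq (P := fun n x => (∃ u, d x u < q n ∧ d y u < q n) ∧
    ∃ v, d x v < q n ∧ d z v < q n) (by (repeat' (first | with_reducible exact IntF.id | with_reducible exact IntF.fst' | with_reducible exact IntF.snd' | with_reducible exact IntF.const _ | with_reducible exact Int.const _ | assumption | with_reducible apply Int.and | with_reducible apply Int.or | with_reducible apply Int.not | with_reducible apply Int.imp | with_reducible apply Int.iff | with_reducible apply Int.ne | with_reducible apply Int.eq | with_reducible apply Int.mem | with_reducible apply Int.subset | with_reducible apply Int.ltN | with_reducible apply Int.leN | with_reducible apply Int.fin | with_reducible apply Int.unique | with_reducible apply Int.all | with_reducible apply Int.ex | with_reducible apply IntF.fst | with_reducible apply IntF.snd | with_reducible apply IntF.app | with_reducible apply IntF.ite | with_reducible apply IntF.sep | with_reducible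 apply IntF.lam | with_reducible apply IntF.insert | with_reducible apply IntF.singleton | with_reducible apply IntF.union | with_reducible apply IntF.inter | with_reducible apply IntF.sdiff | with_reducible apply IntF.isUnion | with_reducible apply IntF.iimage | with_reducible apply IntF.the | with_reducible apply IntF.irec | with_reducible_and_instances apply IntF.add | with_reducible_and_instances apply IntF.mul | with_reducible apply IntF.succ | with_reducible apply IntF.val | with_reducible_and_instances apply Pool.Agent.Helper672.ZFA.Int.le | with_reducible_and_instances apply Pool.Agent.Helper672.ZFA.Int.lt | with_reducible_and_instances apply IntF.sub | with_reducible_and_instances apply IntF.neg | with_reducible_and_instances apply IntF.inv | with_reducible_and_instances apply IntF.div | with_reducible apply IntF.mk | (with_reducible refine Int.comp ?_ ?_; assumption) | (with_reducible refine Int.comp₂ ?_ ?_ ?_; assumption) | (with_reducible refine Int.comp₃ ?_ ?_ ?_ ?_; assumption) | (with_reducible refine IntF.comp ?_ ?_; assumption) | (with_reducible refine IntF.comp₂ ?_ ?_ ?_; assumption) | (with_reducible refine IntF.comp₃ ?_ ?_ ?_ ?_; assumption) | (with_reducible refine Int.comp₄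 ?_ ?_ ?_ ?_ ?_; assumption) | with_reducible apply IntF.pair))) (fun m n hmn x hx => by
      obtain ⟨⟨u, h1, h2⟩, v, h3, h4⟩ := hx
      have := hq.mono hmn
      exact ⟨⟨u, h1.trans_le this, h2.trans_le this⟩, v, h3.trans_le this, h4.trans_le this⟩) h
  have key : ∀ w, (∀ n, ∃ x', d x x' < q n ∧ ∃ u, d x' u < q n ∧ d w u < q n) → x = w := by
    intro w hw
    by_contra hne
    obtain ⟨ε, hε, h1⟩ := hd.haus x w hne
    obtain ⟨n, hn⟩ := hq.lim ε hε
    obtain ⟨x', h2, u, h3, h4⟩ := hw n.succ
    have h5 := hq.half n
    have h6 := hd.tri x x' u
    have h7 := hq.pos n.succ
    exact h1 u ⟨by linarith, by linarith⟩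
  have h1 : x = y := key y fun n => by
    obtain ⟨x', ⟨⟨u, h1, h2⟩, -⟩, h3⟩ := hx n
    exact ⟨x', h3, u, h1, h2⟩
  have h2 : x = z := key z fun n => by
    obtain ⟨x', ⟨-, ⟨u, h1, h2⟩⟩, h3⟩ := hx n
    exact ⟨x', h3, u, h1, h2⟩
  exact h1.symm.trans h2

/-- The entourages. -/
def En (d : α → α → R) (q : INat M → R) (n : INat M) (a b : α) : Prop :=
  ∃ x, d x a < q n ∧ d x b < q n

theorem int_En (hd : QM M d) (hq : HS M q) :
    Int M (fun c : (INat M × α) × α => En d q c.1.1 c.1.2 c.2) := by
  have hqi := hq.int
  have hdi : IntF M (fun q : α × α => d q.1 q.2) := hd.int
  unfold En
  (repeat' (first | with_reducible exact IntF.id | with_reducible exact IntF.fst' | with_reducible exact IntF.snd' | with_reducible exact IntF.const _ | with_reducible exact Int.const _ | assumption | with_reducible apply Int.and | with_reducible apply Int.or | with_reducible apply Int.not | with_reducible apply Int.imp | with_reducible apply Int.iff | with_reducible apply Int.ne | with_reducible apply Int.eq | with_reducible apply Int.mem | with_reducible apply Int.subset | with_reducible apply Int.ltN | with_reducible apply Int.leN | with_reducible apply Int.fin | with_reducible apply Int.unique | with_reducible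 apply Int.all | with_reducible apply Int.ex | with_reducible apply IntF.fst | with_reducible apply IntF.snd | with_reducible apply IntF.app | with_reducible apply IntF.ite | with_reducible apply IntF.sep | with_reducible apply IntF.lam | with_reducible apply IntF.insert | with_reducible apply IntF.singleton | with_reducible apply IntF.union | with_reducible apply IntF.inter | with_reducible apply IntF.sdiff | with_reducible apply IntF.isUnion | with_reducible apply IntF.iimage | with_reducible apply IntF.the | with_reducible apply IntF.irec | with_reducible_and_instances apply IntF.add | with_reducible_and_instances apply IntF.mul | with_reducible apply IntF.succ | with_reducible apply IntF.val | with_reducible_and_instances apply Pool.Agent.Helper672.ZFA.Int.le | with_reducible_and_instances apply Pool.Agent.Helper672.ZFA.Int.lt | with_reducible_and_instances apply IntF.sub | with_reducible_and_instances apply IntF.neg | with_reducible_and_instances apply IntF.inv | with_reducible_and_instances apply IntF.div | with_reducible apply IntF.mk | (with_reducible refine Int.comp ?_ ?_; assumption) | (with_reducible refine Int.comp₂ ?_ ?_ ?_; assumption) | (with_reducible refine Int.comp₃ ?_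 ?_ ?_ ?_; assumption) | (with_reducible refine IntF.comp ?_ ?_; assumption) | (with_reducible refine IntF.comp₂ ?_ ?_ ?_; assumption) | (with_reducible refine IntF.comp₃ ?_ ?_ ?_ ?_; assumption) | (with_reducible refine Int.comp₄ ?_ ?_ ?_ ?_ ?_; assumption) | with_reducible apply IntF.pair))

theorem En.symm {n : INat M} {a b : α} (h : En d q n a b) : En d q n b a := by
  obtain ⟨x, h1, h2⟩ := h
  exact ⟨x, h2, h1⟩

theorem QM.en_refl (hd : QM M d) (hq : HS M q) (n : INat M) (a : α) : En d q n a a := by
  refine ⟨a, ?_, ?_⟩ <;>
  · rw [hd.self]
    exact hq.pos n

theorem En.mono (hq : HS M q) {m n : INat M} (hmn : m ≤ n) {a b : α} (h : En d q n a b) :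
    En d q m a b := by
  obtain ⟨x, h1, h2⟩ := h
  have := hq.mono hmn
  exact ⟨x, h1.trans_le this, h2.trans_le this⟩

/-- Entourages are small near a point. -/
theorem QM.near (hd : QM M d) (hq : HS M q) (b : α) {ε : R} (hε : 0 < ε) :
    ∃ m, ∀ b' a, d b b' < q m → En d q m a b' → d b a < ε := by
  have hqi := hq.int
  have hdi : IntF M (fun q : α × α => d q.1 q.2) := hd.int
  have hEi := int_En hd hq
  by_contra hc
  push Not at hc
  obtain ⟨a₀, ha₀⟩ := hd.cluster hq (P := fun n a => (∃ b', d b b' < q n ∧ En d q n a b') ∧
    ε ≤ d b a) (by (repeat' (first | with_reducible exact IntF.id | with_reducible exact IntF.fst' | with_reducible exact IntF.snd' | with_reducible exact IntF.const _ | with_reducible exact Int.const _ | assumption | with_reducible apply Int.and | with_reducible apply Int.or | with_reducible apply Int.not | with_reducible apply Int.imp | with_reducible apply Int.iff | with_reducible apply Int.ne | with_reducible apply Int.eq | with_reducible apply Int.mem | with_reducible apply Int.subset | with_reducible apply Int.ltN | with_reducible apply Int.leN | with_reducible apply Int.fin | with_reducible apply Int.unique | with_reducible apply Int.all | with_reducible apply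 Int.ex | with_reducible apply IntF.fst | with_reducible apply IntF.snd | with_reducible apply IntF.app | with_reducible apply IntF.ite | with_reducible apply IntF.sep | with_reducible apply IntF.lam | with_reducible apply IntF.insert | with_reducible apply IntF.singleton | with_reducible apply IntF.union | with_reducible apply IntF.inter | with_reducible apply IntF.sdiff | with_reducible apply IntF.isUnion | with_reducible apply IntF.iimage | with_reducible apply IntF.the | with_reducible apply IntF.irec | with_reducible_and_instances apply IntF.add | with_reducible_and_instances apply IntF.mul | with_reducible apply IntF.succ | with_reducible apply IntF.val | with_reducible_and_instances apply Pool.Agent.Helper672.ZFA.Int.le | with_reducible_and_instances apply Pool.Agent.Helper672.ZFA.Int.lt | with_reducible_and_instances apply IntF.sub | with_reducible_and_instances apply IntF.neg | with_reducible_and_instances apply IntF.inv | with_reducible_and_instances apply IntF.div | with_reducible apply IntF.mk | (with_reducible refine Int.comp ?_ ?_; assumption) | (with_reducible refine Int.comp₂ ?_ ?_ ?_; assumption) | (with_reducible refine Int.comp₃ ?_ ?_ ?_ ?_; assumption) | (with_reducible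 refine IntF.comp ?_ ?_; assumption) | (with_reducible refine IntF.comp₂ ?_ ?_ ?_; assumption) | (with_reducible refine IntF.comp₃ ?_ ?_ ?_ ?_; assumption) | (with_reducible refine Int.comp₄ ?_ ?_ ?_ ?_ ?_; assumption) | with_reducible apply IntF.pair))) (fun m n hmn x hx => by
      obtain ⟨⟨b', h1, h2⟩, h3⟩ := hx
      have := hq.mono hmn
      exact ⟨⟨b', h1.trans_le this, h2.mono hq hmn⟩, h3⟩) (fun n => by
        obtain ⟨b', a, h1, h2, h3⟩ := hc n
        exact ⟨a, ⟨b', h1, h2⟩, h3⟩)
  have h1 : b = a₀ := hd.eq_of_near hq fun n => by
    obtain ⟨a, ⟨⟨b', h1, x, h2, h3⟩, h4⟩, h5⟩ := ha₀ n
    exact ⟨x, ⟨b', h3, h1⟩, a, h2, h5⟩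
  obtain ⟨n, hn⟩ := hq.lim ε hε
  obtain ⟨a, ⟨-, h4⟩, h5⟩ := ha₀ n
  rw [← h1] at h5
  linarith

/-- Composition of entourages. -/
theorem QM.comp (hd : QM M d) (hq : HS M q) (n : INat M) :
    ∃ m, ∀ a b c, En d q m a b → En d q m b c → En d q n a c := by
  have hqi := hq.int
  have hdi : IntF M (fun q : α × α => d q.1 q.2) := hd.int
  have hEi := int_En hd hq
  by_contra hc
  push Not at hc
  obtain ⟨b₀, hb₀⟩ := hd.cluster hq (P := fun m b => ∃ a c, En d q m a b ∧ En d q m b c ∧
    ¬ En d q n a c) (by (repeat' (first | with_reducible exact IntF.id | with_reducible exact IntF.fst' | with_reducible exact IntF.snd' | with_reducible exact IntF.const _ | with_reducible exact Int.const _ | assumption | with_reducible apply Int.and | with_reducible apply Int.or | with_reducible apply Int.not | with_reducible apply Int.imp | with_reducible apply Int.iff | with_reducible apply Int.ne | with_reducible apply Int.eq | with_reducible apply Int.mem | with_reducible apply Int.subset | with_reducible apply Int.ltN | with_reducible apply Int.leN | with_reducible apply Int.fin | with_reducible apply Int.unique | with_reducible apply Int.all | with_reducible apply Int.ex | with_reducible apply IntF.fst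 | with_reducible apply IntF.snd | with_reducible apply IntF.app | with_reducible apply IntF.ite | with_reducible apply IntF.sep | with_reducible apply IntF.lam | with_reducible apply IntF.insert | with_reducible apply IntF.singleton | with_reducible apply IntF.union | with_reducible apply IntF.inter | with_reducible apply IntF.sdiff | with_reducible apply IntF.isUnion | with_reducible apply IntF.iimage | with_reducible apply IntF.the | with_reducible apply IntF.irec | with_reducible_and_instances apply IntF.add | with_reducible_and_instances apply IntF.mul | with_reducible apply IntF.succ | with_reducible apply IntF.val | with_reducible_and_instances apply Pool.Agent.Helper672.ZFA.Int.le | with_reducible_and_instances apply Pool.Agent.Helper672.ZFA.Int.lt | with_reducible_and_instances apply IntF.sub | with_reducible_and_instances apply IntF.neg | with_reducible_and_instances apply IntF.inv | with_reducible_and_instances apply IntF.div | with_reducible apply IntF.mk | (with_reducible refine Int.comp ?_ ?_; assumption) | (with_reducible refine Int.comp₂ ?_ ?_ ?_; assumption) | (with_reducible refine Int.comp₃ ?_ ?_ ?_ ?_; assumption) | (with_reducible refine IntF.comp ?_ ?_; assumption)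 | (with_reducible refine IntF.comp₂ ?_ ?_ ?_; assumption) | (with_reducible refine IntF.comp₃ ?_ ?_ ?_ ?_; assumption) | (with_reducible refine Int.comp₄ ?_ ?_ ?_ ?_ ?_; assumption) | with_reducible apply IntF.pair))) (fun m k hmk x hx => by
      obtain ⟨a, c, h1, h2, h3⟩ := hx
      exact ⟨a, c, h1.mono hq hmk, h2.mono hq hmk, h3⟩) (fun m => by
        obtain ⟨a, b, c, h1, h2, h3⟩ := hc m
        exact ⟨b, a, c, h1, h2, h3⟩)
  obtain ⟨m, hm⟩ := hd.near hq b₀ (hq.pos n)
  obtain ⟨b, ⟨a, c, h1, h2, h3⟩, h4⟩ := hb₀ m
  exact h3 ⟨b₀, hm b a h4 h1, hm b c h4 h2.symm⟩

end

variable (M) in
/-- Countable bases of separated uniformities. -/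
structure UB (U : INat M → α → α → Prop) : Prop where
  int : Int M (fun c : (INat M × α) × α => U c.1.1 c.1.2 c.2)
  refl : ∀ n a, U n a a
  symm : ∀ n a b, U n a b → U n b a
  mono : ∀ m n, m ≤ n → ∀ a b, U n a b → U m a b
  comp : ∀ n, ∃ m, ∀ a b c, U m a b → U m b c → U n a c
  sep : ∀ a b, (∀ n, U n a b) → a = b

section

variable [Field R] [LinearOrder R] [IsStrictOrderedRing R] [IAdd M R] [IMul M R] [ILE M R]

variable {d : α → α → R} {q : INat M → R}

theorem QM.ub (hd : QM M d) (hq : HS M q) : UB M (En d q) where
  int := int_En hd hq
  refl n a := hd.en_refl hq n a
  symm n a b h := h.symm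
  mono m n hmn a b h := h.mono hq hmn
  comp n := hd.comp hq n
  sep a b h := hd.eq_of_near hq fun n => by
    obtain ⟨x, h1, h2⟩ := h n
    refine ⟨x, ⟨a, h1, ?_⟩, b, h2, ?_⟩ <;>
    · rw [hd.self]
      exact hq.pos n

end

end Pool.Agent.Q211.ZQ
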