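import Pool.Agent.Q211.ZQ.A

/-!
# Separated uniformities with a countable base are metrizable, inside a model
-/

set_option maxHeartbeats 1000000
set_option linter.all false

namespace Pool.Agent.Q211.ZQ

open FirstOrder FirstOrder.Language
open Pool.Agent.Helper672.ZFA
open Pool.Agent.H310
open Pool.Agent.Q212.ZA
open Pool.Agent.Q212.ZC

universe u u₁ u₂ u₃ u₄

variable {M : Type u} [L.Structure M] [hM : IsModel M]
variable {α : Type u₁} {R : Type u₃} [ITy M α] [ITy M R]
variable {U : INat M → α → α → Prop}

/-- Triple composition. -/
def Tr (U : INat M → α → α → Prop) (m k : INat M) : Prop :=
  ∀ a b c e, U m a b → U m b c → U m c e → U k a e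

theorem int_Tr (hU : UB M U) : Int M (fun c : INat M × INat M => Tr U c.1 c.2) := by
  have hi := hU.int
  unfold Tr
  (repeat' (first | with_reducible exact IntF.id | with_reducible exact IntF.fst' | with_reducible exact IntF.snd' | with_reducible exact IntF.const _ | with_reducible exact Int.const _ | assumption | with_reducible apply Int.and | with_reducible apply Int.or | with_reducible apply Int.not | with_reducible apply Int.imp | with_reducible apply Int.iff | with_reducible apply Int.ne | with_reducible apply Int.eq | with_reducible apply Int.mem | with_reducible apply Int.subset | with_reducible apply Int.ltN | with_reducible apply Int.leN | with_reducible apply Int.fin | with_reducible apply Int.unique | with_reducible apply Int.all | with_reducible apply Int.ex | with_reducible apply IntF.fst | with_reducible apply IntF.snd | with_reducible apply IntF.app | with_reducible apply IntF.ite | with_reducible apply IntF.sep | with_reducible apply IntF.lam | with_reducible apply IntF.insert | with_reducible apply IntF.singleton | with_reducible apply IntF.union | with_reducible apply IntF.inter | with_reducible apply IntF.sdiff | with_reducible apply IntF.isUnion | with_reducible apply IntF.iimage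 | with_reducible apply IntF.the | with_reducible apply IntF.irec | with_reducible_and_instances apply IntF.add | with_reducible_and_instances apply IntF.mul | with_reducible apply IntF.succ | with_reducible apply IntF.val | with_reducible_and_instances apply Pool.Agent.Helper672.ZFA.Int.le | with_reducible_and_instances apply Pool.Agent.Helper672.ZFA.Int.lt | with_reducible_and_instances apply IntF.sub | with_reducible_and_instances apply IntF.neg | with_reducible_and_instances apply IntF.inv | with_reducible_and_instances apply IntF.div | with_reducible apply IntF.mk | (with_reducible refine Int.comp ?_ ?_; assumption) | (with_reducible refine Int.comp₂ ?_ ?_ ?_; assumption) | (with_reducible refine Int.comp₃ ?_ ?_ ?_ ?_; assumption) | (with_reducible refine IntF.comp ?_ ?_; assumption) | (with_reducible refine IntF.comp₂ ?_ ?_ ?_; assumption) | (with_reducible refine IntF.comp₃ ?_ ?_ ?_ ?_; assumption) | (with_reducible refine Int.comp₄ ?_ ?_ ?_ ?_ ?_; assumption) | with_reducible apply IntF.pair))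

theorem exists_Tr (hU : UB M U) (k : INat M) : ∃ m, k < m ∧ Tr U m k := by
  obtain ⟨m₁, h1⟩ := hU.comp k
  obtain ⟨m₂, h2⟩ := hU.comp m₁
  refine ⟨max k.succ (max m₁ m₂), (INat.lt_succ_self k).trans_le (le_max_left _ _),
    fun a b c e hab hbc hce => ?_⟩
  have l1 : m₁ ≤ max k.succ (max m₁ m₂) := (le_max_left _ _).trans (le_max_right _ _)
  have l2 : m₂ ≤ max k.succ (max m₁ m₂) := (le_max_right _ _).trans (le_max_right _ _)
  exact h1 a c e (h2 a b c (hU.mono _ _ l2 _ _ hab) (hU.mono _ _ l2 _ _ hbc))
    (hU.mono _ _ l1 _ _ hce)

/-- The next index. -/
noncomputable def nx (U : INat M → α → α → Prop) (k : INat M) : INat M :=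
  the (fun m => (k < m ∧ Tr U m k) ∧ ∀ m', k < m' ∧ Tr U m' k → m ≤ m') 0

theorem int_nx (hU : UB M U) : IntF M (fun k => nx U k) := by
  have hi := int_Tr hU
  unfold nx
  (repeat' (first | with_reducible exact IntF.id | with_reducible exact IntF.fst' | with_reducible exact IntF.snd' | with_reducible exact IntF.const _ | with_reducible exact Int.const _ | assumption | with_reducible apply Int.and | with_reducible apply Int.or | with_reducible apply Int.not | with_reducible apply Int.imp | with_reducible apply Int.iff | with_reducible apply Int.ne | with_reducible apply Int.eq | with_reducible apply Int.mem | with_reducible apply Int.subset | with_reducible apply Int.ltN | with_reducible apply Int.leN | with_reducible apply Int.fin | with_reducible apply Int.unique | with_reducible apply Int.all | with_reducible apply Int.ex | with_reducible apply IntF.fst | with_reducible apply IntF.snd | with_reducible apply IntF.app | with_reducible apply IntF.ite | with_reducible apply IntF.sep | with_reducible apply IntF.lam | with_reducible apply IntF.insert | with_reducible apply IntF.singleton | with_reducible apply IntF.union | with_reducible apply IntF.inter | with_reducible apply IntF.sdiff | with_reducible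 apply IntF.isUnion | with_reducible apply IntF.iimage | with_reducible apply IntF.the | with_reducible apply IntF.irec | with_reducible_and_instances apply IntF.add | with_reducible_and_instances apply IntF.mul | with_reducible apply IntF.succ | with_reducible apply IntF.val | with_reducible_and_instances apply Pool.Agent.Helper672.ZFA.Int.le | with_reducible_and_instances apply Pool.Agent.Helper672.ZFA.Int.lt | with_reducible_and_instances apply IntF.sub | with_reducible_and_instances apply IntF.neg | with_reducible_and_instances apply IntF.inv | with_reducible_and_instances apply IntF.div | with_reducible apply IntF.mk | (with_reducible refine Int.comp ?_ ?_; assumption) | (with_reducible refine Int.comp₂ ?_ ?_ ?_; assumption) | (with_reducible refine Int.comp₃ ?_ ?_ ?_ ?_; assumption) | (with_reducible refine IntF.comp ?_ ?_; assumption) | (with_reducible refine IntF.comp₂ ?_ ?_ ?_; assumption) | (with_reducible refine IntF.comp₃ ?_ ?_ ?_ ?_; assumption) | (with_reducible refine Int.comp₄ ?_ ?_ ?_ ?_ ?_; assumption) | with_reducible apply IntF.pair))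

theorem nx_spec (hU : UB M U) (k : INat M) : k < nx U k ∧ Tr U (nx U k) k := by
  have hi := int_Tr hU
  obtain ⟨m, h1, h2⟩ := INat.exists_least (p := fun m => k < m ∧ Tr U m k) (by (repeat' (first | with_reducible exact IntF.id | with_reducible exact IntF.fst' | with_reducible exact IntF.snd' | with_reducible exact IntF.const _ | with_reducible exact Int.const _ | assumption | with_reducible apply Int.and | with_reducible apply Int.or | with_reducible apply Int.not | with_reducible apply Int.imp | with_reducible apply Int.iff | with_reducible apply Int.ne | with_reducible apply Int.eq | with_reducible apply Int.mem | with_reducible apply Int.subset | with_reducible apply Int.ltN | with_reducible apply Int.leN | with_reducible apply Int.fin | with_reducible apply Int.unique | with_reducible apply Int.all | with_reducible apply Int.ex | with_reducible apply IntF.fst | with_reducible apply IntF.snd | with_reducible apply IntF.app | with_reducible apply IntF.ite | with_reducible apply IntF.sep | with_reducible apply IntF.lam | with_reducible apply IntF.insert | with_reducible apply IntF.singleton | with_reducible apply IntF.union | with_reducible apply IntF.inter | with_reducible apply IntF.sdiff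 | with_reducible apply IntF.isUnion | with_reducible apply IntF.iimage | with_reducible apply IntF.the | with_reducible apply IntF.irec | with_reducible_and_instances apply IntF.add | with_reducible_and_instances apply IntF.mul | with_reducible apply IntF.succ | with_reducible apply IntF.val | with_reducible_and_instances apply Pool.Agent.Helper672.ZFA.Int.le | with_reducible_and_instances apply Pool.Agent.Helper672.ZFA.Int.lt | with_reducible_and_instances apply IntF.sub | with_reducible_and_instances apply IntF.neg | with_reducible_and_instances apply IntF.inv | with_reducible_and_instances apply IntF.div | with_reducible apply IntF.mk | (with_reducible refine Int.comp ?_ ?_; assumption) | (with_reducible refine Int.comp₂ ?_ ?_ ?_; assumption) | (with_reducible refine Int.comp₃ ?_ ?_ ?_ ?_; assumption) | (with_reducible refine IntF.comp ?_ ?_; assumption) | (with_reducible refine IntF.comp₂ ?_ ?_ ?_; assumption) | (with_reducible refine IntF.comp₃ ?_ ?_ ?_ ?_; assumption) | (with_reducible refine Int.comp₄ ?_ ?_ ?_ ?_ ?_; assumption) | with_reducible apply IntF.pair)))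
    (exists_Tr hU k)
  have : nx U k = m := the_eq ⟨m, ⟨h1, h2⟩, fun m' hm' =>
    le_antisymm (hm'.2 m h1) (h2 m' hm'.1)⟩ ⟨h1, h2⟩
  rw [this]
  exact h1

/-- The subsequence. -/
noncomputable def ph (U : INat M → α → α → Prop) (n : INat M) : INat M :=
  irec 0 (fun _ k => nx U k) n

theorem int_ph (hU : UB M U) : IntF M (fun k => ph U k) := by
  have hi := int_nx hU
  unfold ph
  (repeat' (first | with_reducible exact IntF.id | with_reducible exact IntF.fst' | with_reducible exact IntF.snd' | with_reducible exact IntF.const _ | with_reducible exact Int.const _ | assumption | with_reducible apply Int.and | with_reducible apply Int.or | with_reducible apply Int.not | with_reducible apply Int.imp | with_reducible apply Int.iff | with_reducible apply Int.ne | with_reducible apply Int.eq | with_reducible apply Int.mem | with_reducible apply Int.subset | with_reducible apply Int.ltN | with_reducible apply Int.leN | with_reducible apply Int.fin | with_reducible apply Int.unique | with_reducible apply Int.all | with_reducible apply Int.ex | with_reducible apply IntF.fst | with_reducible apply IntF.snd | with_reducible apply IntF.app | with_reducible apply IntF.ite | with_reducible apply IntF.sep | with_reducible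 apply IntF.lam | with_reducible apply IntF.insert | with_reducible apply IntF.singleton | with_reducible apply IntF.union | with_reducible apply IntF.inter | with_reducible apply IntF.sdiff | with_reducible apply IntF.isUnion | with_reducible apply IntF.iimage | with_reducible apply IntF.the | with_reducible apply IntF.irec | with_reducible_and_instances apply IntF.add | with_reducible_and_instances apply IntF.mul | with_reducible apply IntF.succ | with_reducible apply IntF.val | with_reducible_and_instances apply Pool.Agent.Helper672.ZFA.Int.le | with_reducible_and_instances apply Pool.Agent.Helper672.ZFA.Int.lt | with_reducible_and_instances apply IntF.sub | with_reducible_and_instances apply IntF.neg | with_reducible_and_instances apply IntF.inv | with_reducible_and_instances apply IntF.div | with_reducible apply IntF.mk | (with_reducible refine Int.comp ?_ ?_; assumption) | (with_reducible refine Int.comp₂ ?_ ?_ ?_; assumption) | (with_reducible refine Int.comp₃ ?_ ?_ ?_ ?_; assumption) | (with_reducible refine IntF.comp ?_ ?_; assumption) | (with_reducible refine IntF.comp₂ ?_ ?_ ?_; assumption) | (with_reducible refine IntF.comp₃ ?_ ?_ ?_ ?_; assumption) | (with_reducible refine Int.comp₄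 ?_ ?_ ?_ ?_ ?_; assumption) | with_reducible apply IntF.pair))

theorem ph_succ (hU : UB M U) (n : INat M) : ph U n.succ = nx U (ph U n) := by
  have hi := int_nx hU
  exact irec_succ (by (repeat' (first | with_reducible exact IntF.id | with_reducible exact IntF.fst' | with_reducible exact IntF.snd' | with_reducible exact IntF.const _ | with_reducible exact Int.const _ | assumption | with_reducible apply Int.and | with_reducible apply Int.or | with_reducible apply Int.not | with_reducible apply Int.imp | with_reducible apply Int.iff | with_reducible apply Int.ne | with_reducible apply Int.eq | with_reducible apply Int.mem | with_reducible apply Int.subset | with_reducible apply Int.ltN | with_reducible apply Int.leN | with_reducible apply Int.fin | with_reducible apply Int.unique | with_reducible apply Int.all | with_reducible apply Int.ex | with_reducible apply IntF.fst | with_reducible apply IntF.snd | with_reducible apply IntF.app | with_reducible apply IntF.ite | with_reducible apply IntF.sep | with_reducible apply IntF.lam | with_reducible apply IntF.insert | with_reducible apply IntF.singleton | with_reducible apply IntF.union | with_reducible apply IntF.inter | with_reducible apply IntF.sdiff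 | with_reducible apply IntF.isUnion | with_reducible apply IntF.iimage | with_reducible apply IntF.the | with_reducible apply IntF.irec | with_reducible_and_instances apply IntF.add | with_reducible_and_instances apply IntF.mul | with_reducible apply IntF.succ | with_reducible apply IntF.val | with_reducible_and_instances apply Pool.Agent.Helper672.ZFA.Int.le | with_reducible_and_instances apply Pool.Agent.Helper672.ZFA.Int.lt | with_reducible_and_instances apply IntF.sub | with_reducible_and_instances apply IntF.neg | with_reducible_and_instances apply IntF.inv | with_reducible_and_instances apply IntF.div | with_reducible apply IntF.mk | (with_reducible refine Int.comp ?_ ?_; assumption) | (with_reducible refine Int.comp₂ ?_ ?_ ?_; assumption) | (with_reducible refine Int.comp₃ ?_ ?_ ?_ ?_; assumption) | (with_reducible refine IntF.comp ?_ ?_; assumption) | (with_reducible refine IntF.comp₂ ?_ ?_ ?_; assumption) | (with_reducible refine IntF.comp₃ ?_ ?_ ?_ ?_; assumption) | (with_reducible refine Int.comp₄ ?_ ?_ ?_ ?_ ?_; assumption) | with_reducible apply IntF.pair))) n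

theorem le_ph (hU : UB M U) (n : INat M) : n ≤ ph U n := by
  have hi := int_ph hU
  refine INat.ind (p := fun n => n ≤ ph U n) (by (repeat' (first | with_reducible exact IntF.id | with_reducible exact IntF.fst' | with_reducible exact IntF.snd' | with_reducible exact IntF.const _ | with_reducible exact Int.const _ | assumption | with_reducible apply Int.and | with_reducible apply Int.or | with_reducible apply Int.not | with_reducible apply Int.imp | with_reducible apply Int.iff | with_reducible apply Int.ne | with_reducible apply Int.eq | with_reducible apply Int.mem | with_reducible apply Int.subset | with_reducible apply Int.ltN | with_reducible apply Int.leN | with_reducible apply Int.fin | with_reducible apply Int.unique | with_reducible apply Int.all | with_reducible apply Int.ex | with_reducible apply IntF.fst | with_reducible apply IntF.snd | with_reducible apply IntF.app | with_reducible apply IntF.ite | with_reducible apply IntF.sep | with_reducible apply IntF.lam | with_reducible apply IntF.insert | with_reducible apply IntF.singleton | with_reducible apply IntF.union | with_reducible apply IntF.inter | with_reducible apply IntF.sdiff | with_reducible apply IntF.isUnion | with_reducible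 apply IntF.iimage | with_reducible apply IntF.the | with_reducible apply IntF.irec | with_reducible_and_instances apply IntF.add | with_reducible_and_instances apply IntF.mul | with_reducible apply IntF.succ | with_reducible apply IntF.val | with_reducible_and_instances apply Pool.Agent.Helper672.ZFA.Int.le | with_reducible_and_instances apply Pool.Agent.Helper672.ZFA.Int.lt | with_reducible_and_instances apply IntF.sub | with_reducible_and_instances apply IntF.neg | with_reducible_and_instances apply IntF.inv | with_reducible_and_instances apply IntF.div | with_reducible apply IntF.mk | (with_reducible refine Int.comp ?_ ?_; assumption) | (with_reducible refine Int.comp₂ ?_ ?_ ?_; assumption) | (with_reducible refine Int.comp₃ ?_ ?_ ?_ ?_; assumption) | (with_reducible refine IntF.comp ?_ ?_; assumption) | (with_reducible refine IntF.comp₂ ?_ ?_ ?_; assumption) | (with_reducible refine IntF.comp₃ ?_ ?_ ?_ ?_; assumption) | (with_reducible refine Int.comp₄ ?_ ?_ ?_ ?_ ?_; assumption) | with_reducible apply IntF.pair))) ?_ ?_ n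
  · exact INat.zero_le _
  · intro n ih
    rw [ph_succ hU]
    exact INat.succ_le_iff.2 (ih.trans_lt (nx_spec hU _).1)

/-- The new base. -/
def VV (U : INat M → α → α → Prop) (k : INat M) (a b : α) : Prop :=
  ∀ j, j < k → U (ph U j) a b

theorem int_VV (hU : UB M U) :
    Int M (fun c : (INat M × α) × α => VV U c.1.1 c.1.2 c.2) := by
  have hi := int_ph hU
  have hi' := hU.int
  unfold VV
  (repeat' (first | with_reducible exact IntF.id | with_reducible exact IntF.fst' | with_reducible exact IntF.snd' | with_reducible exact IntF.const _ | with_reducible exact Int.const _ | assumption | with_reducible apply Int.and | with_reducible apply Int.or | with_reducible apply Int.not | with_reducible apply Int.imp | with_reducible apply Int.iff | with_reducible apply Int.ne | with_reducible apply Int.eq | with_reducible apply Int.mem | with_reducible apply Int.subset | with_reducible apply Int.ltN | with_reducible apply Int.leN | with_reducible apply Int.fin | with_reducible apply Int.unique | with_reducible apply Int.all | with_reducible apply Int.ex | with_reducible apply IntF.fst | with_reducible apply IntF.snd | with_reducible apply IntF.app | with_reducible apply IntF.ite | with_reducible apply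 IntF.sep | with_reducible apply IntF.lam | with_reducible apply IntF.insert | with_reducible apply IntF.singleton | with_reducible apply IntF.union | with_reducible apply IntF.inter | with_reducible apply IntF.sdiff | with_reducible apply IntF.isUnion | with_reducible apply IntF.iimage | with_reducible apply IntF.the | with_reducible apply IntF.irec | with_reducible_and_instances apply IntF.add | with_reducible_and_instances apply IntF.mul | with_reducible apply IntF.succ | with_reducible apply IntF.val | with_reducible_and_instances apply Pool.Agent.Helper672.ZFA.Int.le | with_reducible_and_instances apply Pool.Agent.Helper672.ZFA.Int.lt | with_reducible_and_instances apply IntF.sub | with_reducible_and_instances apply IntF.neg | with_reducible_and_instances apply IntF.inv | with_reducible_and_instances apply IntF.div | with_reducible apply IntF.mk | (with_reducible refine Int.comp ?_ ?_; assumption) | (with_reducible refine Int.comp₂ ?_ ?_ ?_; assumption) | (with_reducible refine Int.comp₃ ?_ ?_ ?_ ?_; assumption) | (with_reducible refine IntF.comp ?_ ?_; assumption) | (with_reducible refine IntF.comp₂ ?_ ?_ ?_; assumption) | (with_reducible refine IntF.comp₃ ?_ ?_ ?_ ?_; assumption) | (with_reducible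 refine Int.comp₄ ?_ ?_ ?_ ?_ ?_; assumption) | with_reducible apply IntF.pair))

theorem VV_zero (a b : α) : VV U 0 a b := fun j hj => absurd hj INat.not_lt_zero

theorem VV_refl (hU : UB M U) (k : INat M) (a : α) : VV U k a a := fun j _ => hU.refl _ _

theorem VV.symm (hU : UB M U) {k : INat M} {a b : α} (h : VV U k a b) : VV U k b a :=
  fun j hj => hU.symm _ _ _ (h j hj)

theorem VV.mono {k l : INat M} (hkl : k ≤ l) {a b : α} (h : VV U l a b) : VV U k a b :=
  fun j hj => h j (hj.trans_le hkl)

theorem VV.comp (hU : UB M U) {k : INat M} {a b c e : α} (h1 : VV U k.succ a b)
    (h2 : VV U k.succ b c) (h3 : VV U k.succ c e) : VV U k a e := by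
  intro j hj
  have hj' : j.succ < k.succ := (INat.succ_le_iff.2 hj).trans_lt (INat.lt_succ_self k)
  have h4 := h1 _ hj'
  have h5 := h2 _ hj'
  have h6 := h3 _ hj'
  rw [ph_succ hU] at h4 h5 h6
  exact (nx_spec hU _).2 _ _ _ _ h4 h5 h6

theorem VV.of {n : INat M} (hU : UB M U) {a b : α} (h : VV U n.succ a b) : U n a b :=
  hU.mono _ _ (le_ph hU n) _ _ (h n (INat.lt_succ_self n))

theorem ph_mono (hU : UB M U) {m n : INat M} (h : m ≤ n) : ph U m ≤ ph U n := by
  have hi := int_ph hU
  revert h
  refine INat.ind (p := fun n => m ≤ n → ph U m ≤ ph U n) (by (repeat' (first | with_reducible exact IntF.id | with_reducible exact IntF.fst' | with_reducible exact IntF.snd' | with_reducible exact IntF.const _ | with_reducible exact Int.const _ | assumption | with_reducible apply Int.and | with_reducible apply Int.or | with_reducible apply Int.not | with_reducible apply Int.imp | with_reducible apply Int.iff | with_reducible apply Int.ne | with_reducible apply Int.eq | with_reducible apply Int.mem | with_reducible apply Int.subset | with_reducible apply Int.ltN | with_reducible apply Int.leN | with_reducible apply Int.fin | with_reducible apply Int.unique | with_reducible apply Int.all | with_reducible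 apply Int.ex | with_reducible apply IntF.fst | with_reducible apply IntF.snd | with_reducible apply IntF.app | with_reducible apply IntF.ite | with_reducible apply IntF.sep | with_reducible apply IntF.lam | with_reducible apply IntF.insert | with_reducible apply IntF.singleton | with_reducible apply IntF.union | with_reducible apply IntF.inter | with_reducible apply IntF.sdiff | with_reducible apply IntF.isUnion | with_reducible apply IntF.iimage | with_reducible apply IntF.the | with_reducible apply IntF.irec | with_reducible_and_instances apply IntF.add | with_reducible_and_instances apply IntF.mul | with_reducible apply IntF.succ | with_reducible apply IntF.val | with_reducible_and_instances apply Pool.Agent.Helper672.ZFA.Int.le | with_reducible_and_instances apply Pool.Agent.Helper672.ZFA.Int.lt | with_reducible_and_instances apply IntF.sub | with_reducible_and_instances apply IntF.neg | with_reducible_and_instances apply IntF.inv | with_reducible_and_instances apply IntF.div | with_reducible apply IntF.mk | (with_reducible refine Int.comp ?_ ?_; assumption) | (with_reducible refine Int.comp₂ ?_ ?_ ?_; assumption) | (with_reducible refine Int.comp₃ ?_ ?_ ?_ ?_; assumption) | (with_reducible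 refine IntF.comp ?_ ?_; assumption) | (with_reducible refine IntF.comp₂ ?_ ?_ ?_; assumption) | (with_reducible refine IntF.comp₃ ?_ ?_ ?_ ?_; assumption) | (with_reducible refine Int.comp₄ ?_ ?_ ?_ ?_ ?_; assumption) | with_reducible apply IntF.pair))) ?_ ?_ n
  · intro h
    rw [le_antisymm h (INat.zero_le m)]
  · intro n ih h
    rcases h.lt_or_eq with h | rfl
    · rw [ph_succ hU]
      exact (ih (INat.lt_succ_iff.1 h)).trans (nx_spec hU _).1.le
    · exact le_rfl

theorem VV_of (hU : UB M U) {k : INat M} {a b : α} (h : U (ph U k) a b) : VV U k a b :=
  fun j hj => hU.mono _ _ (ph_mono hU hj.le) _ _ h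

section

variable [Field R] [LinearOrder R] [IsStrictOrderedRing R] [IAdd M R] [IMul M R] [ILE M R]
variable {q : INat M → R}

/-- Chains. -/
noncomputable def ch (U : INat M → α → α → Prop) (q : INat M → R) (n : INat M) :
    IPow M ((α × α) × R) :=
  irec (sep M fun c : (α × α) × R => c.1.1 = c.1.2 ∧ c.2 = 0)
    (fun _ S => sep M fun c : (α × α) × R => ∃ z j s, ((c.1.1, z), s) ∈ S ∧ VV U j z c.1.2 ∧
      c.2 = s + q j) n

theorem int_ch (hU : UB M U) (hq : IntF M q) : IntF M (fun n => ch U q n) := by
  have hi := int_VV hU
  unfold ch
  (repeat' (first | with_reducible exact IntF.id | with_reducible exact IntF.fst' | with_reducible exact IntF.snd' | with_reducible exact IntF.const _ | with_reducible exact Int.const _ | assumption | with_reducible apply Int.and | with_reducible apply Int.or | with_reducible apply Int.not | with_reducible apply Int.imp | with_reducible apply Int.iff | with_reducible apply Int.ne | with_reducible apply Int.eq | with_reducible apply Int.mem | with_reducible apply Int.subset | with_reducible apply Int.ltN | with_reducible apply Int.leN | with_reducible apply Int.fin | with_reducible apply Int.unique | with_reducible apply Int.all | with_reducible apply Int.ex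 | with_reducible apply IntF.fst | with_reducible apply IntF.snd | with_reducible apply IntF.app | with_reducible apply IntF.ite | with_reducible apply IntF.sep | with_reducible apply IntF.lam | with_reducible apply IntF.insert | with_reducible apply IntF.singleton | with_reducible apply IntF.union | with_reducible apply IntF.inter | with_reducible apply IntF.sdiff | with_reducible apply IntF.isUnion | with_reducible apply IntF.iimage | with_reducible apply IntF.the | with_reducible apply IntF.irec | with_reducible_and_instances apply IntF.add | with_reducible_and_instances apply IntF.mul | with_reducible apply IntF.succ | with_reducible apply IntF.val | with_reducible_and_instances apply Pool.Agent.Helper672.ZFA.Int.le | with_reducible_and_instances apply Pool.Agent.Helper672.ZFA.Int.lt | with_reducible_and_instances apply IntF.sub | with_reducible_and_instances apply IntF.neg | with_reducible_and_instances apply IntF.inv | with_reducible_and_instances apply IntF.div | with_reducible apply IntF.mk | (with_reducible refine Int.comp ?_ ?_; assumption) | (with_reducible refine Int.comp₂ ?_ ?_ ?_; assumption) | (with_reducible refine Int.comp₃ ?_ ?_ ?_ ?_; assumption) | (with_reducible refine IntF.comp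 ?_ ?_; assumption) | (with_reducible refine IntF.comp₂ ?_ ?_ ?_; assumption) | (with_reducible refine IntF.comp₃ ?_ ?_ ?_ ?_; assumption) | (with_reducible refine Int.comp₄ ?_ ?_ ?_ ?_ ?_; assumption) | with_reducible apply IntF.pair))

/-- There is a chain of length `n` and weight `s`. -/
def Ch (U : INat M → α → α → Prop) (q : INat M → R) (n : INat M) (a b : α) (s : R) : Prop :=
  ((a, b), s) ∈ ch U q n

theorem int_Ch (hU : UB M U) (hq : IntF M q) :
    Int M (fun c : ((INat M × α) × α) × R => Ch U q c.1.1.1 c.1.1.2 c.1.2 c.2) := by
  have hi := int_ch hU hq
  unfold Ch
  (repeat' (first | with_reducible exact IntF.id | with_reducible exact IntF.fst' | with_reducible exact IntF.snd' | with_reducible exact IntF.const _ | with_reducible exact Int.const _ | assumption | with_reducible apply Int.and | with_reducible apply Int.or | with_reducible apply Int.not | with_reducible apply Int.imp | with_reducible apply Int.iff | with_reducible apply Int.ne | with_reducible apply Int.eq | with_reducible apply Int.mem | with_reducible apply Int.subset | with_reducible apply Int.ltN | with_reducible apply Int.leN | with_reducible apply Int.fin | with_reducible apply Int.unique | with_reducible apply Int.all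 | with_reducible apply Int.ex | with_reducible apply IntF.fst | with_reducible apply IntF.snd | with_reducible apply IntF.app | with_reducible apply IntF.ite | with_reducible apply IntF.sep | with_reducible apply IntF.lam | with_reducible apply IntF.insert | with_reducible apply IntF.singleton | with_reducible apply IntF.union | with_reducible apply IntF.inter | with_reducible apply IntF.sdiff | with_reducible apply IntF.isUnion | with_reducible apply IntF.iimage | with_reducible apply IntF.the | with_reducible apply IntF.irec | with_reducible_and_instances apply IntF.add | with_reducible_and_instances apply IntF.mul | with_reducible apply IntF.succ | with_reducible apply IntF.val | with_reducible_and_instances apply Pool.Agent.Helper672.ZFA.Int.le | with_reducible_and_instances apply Pool.Agent.Helper672.ZFA.Int.lt | with_reducible_and_instances apply IntF.sub | with_reducible_and_instances apply IntF.neg | with_reducible_and_instances apply IntF.inv | with_reducible_and_instances apply IntF.div | with_reducible apply IntF.mk | (with_reducible refine Int.comp ?_ ?_; assumption) | (with_reducible refine Int.comp₂ ?_ ?_ ?_; assumption) | (with_reducible refine Int.comp₃ ?_ ?_ ?_ ?_; assumption)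 | (with_reducible refine IntF.comp ?_ ?_; assumption) | (with_reducible refine IntF.comp₂ ?_ ?_ ?_; assumption) | (with_reducible refine IntF.comp₃ ?_ ?_ ?_ ?_; assumption) | (with_reducible refine Int.comp₄ ?_ ?_ ?_ ?_ ?_; assumption) | with_reducible apply IntF.pair))

theorem Ch_zero (hU : UB M U) (hq : IntF M q) {a b : α} {s : R} :
    Ch U q 0 a b s ↔ a = b ∧ s = 0 := by
  have hi := int_VV hU
  unfold Ch ch
  rw [irec_zero (by (repeat' (first | with_reducible exact IntF.id | with_reducible exact IntF.fst' | with_reducible exact IntF.snd' | with_reducible exact IntF.const _ | with_reducible exact Int.const _ | assumption | with_reducible apply Int.and | with_reducible apply Int.or | with_reducible apply Int.not | with_reducible apply Int.imp | with_reducible apply Int.iff | with_reducible apply Int.ne | with_reducible apply Int.eq | with_reducible apply Int.mem | with_reducible apply Int.subset | with_reducible apply Int.ltN | with_reducible apply Int.leN | with_reducible apply Int.fin | with_reducible apply Int.unique | with_reducible apply Int.all | with_reducible apply Int.ex | with_reducible apply IntF.fst | with_reducible apply IntF.snd | with_reducible apply IntF.app | with_reducible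 apply IntF.ite | with_reducible apply IntF.sep | with_reducible apply IntF.lam | with_reducible apply IntF.insert | with_reducible apply IntF.singleton | with_reducible apply IntF.union | with_reducible apply IntF.inter | with_reducible apply IntF.sdiff | with_reducible apply IntF.isUnion | with_reducible apply IntF.iimage | with_reducible apply IntF.the | with_reducible apply IntF.irec | with_reducible_and_instances apply IntF.add | with_reducible_and_instances apply IntF.mul | with_reducible apply IntF.succ | with_reducible apply IntF.val | with_reducible_and_instances apply Pool.Agent.Helper672.ZFA.Int.le | with_reducible_and_instances apply Pool.Agent.Helper672.ZFA.Int.lt | with_reducible_and_instances apply IntF.sub | with_reducible_and_instances apply IntF.neg | with_reducible_and_instances apply IntF.inv | with_reducible_and_instances apply IntF.div | with_reducible apply IntF.mk | (with_reducible refine Int.comp ?_ ?_; assumption) | (with_reducible refine Int.comp₂ ?_ ?_ ?_; assumption) | (with_reducible refine Int.comp₃ ?_ ?_ ?_ ?_; assumption) | (with_reducible refine IntF.comp ?_ ?_; assumption) | (with_reducible refine IntF.comp₂ ?_ ?_ ?_; assumption) | (with_reducible refine IntF.comp₃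 ?_ ?_ ?_ ?_; assumption) | (with_reducible refine Int.comp₄ ?_ ?_ ?_ ?_ ?_; assumption) | with_reducible apply IntF.pair))), mem_sep (by (repeat' (first | with_reducible exact IntF.id | with_reducible exact IntF.fst' | with_reducible exact IntF.snd' | with_reducible exact IntF.const _ | with_reducible exact Int.const _ | assumption | with_reducible apply Int.and | with_reducible apply Int.or | with_reducible apply Int.not | with_reducible apply Int.imp | with_reducible apply Int.iff | with_reducible apply Int.ne | with_reducible apply Int.eq | with_reducible apply Int.mem | with_reducible apply Int.subset | with_reducible apply Int.ltN | with_reducible apply Int.leN | with_reducible apply Int.fin | with_reducible apply Int.unique | with_reducible apply Int.all | with_reducible apply Int.ex | with_reducible apply IntF.fst | with_reducible apply IntF.snd | with_reducible apply IntF.app | with_reducible apply IntF.ite | with_reducible apply IntF.sep | with_reducible apply IntF.lam | with_reducible apply IntF.insert | with_reducible apply IntF.singleton | with_reducible apply IntF.union | with_reducible apply IntF.inter | with_reducible apply IntF.sdiff | with_reducible apply IntF.isUnion | with_reducible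 apply IntF.iimage | with_reducible apply IntF.the | with_reducible apply IntF.irec | with_reducible_and_instances apply IntF.add | with_reducible_and_instances apply IntF.mul | with_reducible apply IntF.succ | with_reducible apply IntF.val | with_reducible_and_instances apply Pool.Agent.Helper672.ZFA.Int.le | with_reducible_and_instances apply Pool.Agent.Helper672.ZFA.Int.lt | with_reducible_and_instances apply IntF.sub | with_reducible_and_instances apply IntF.neg | with_reducible_and_instances apply IntF.inv | with_reducible_and_instances apply IntF.div | with_reducible apply IntF.mk | (with_reducible refine Int.comp ?_ ?_; assumption) | (with_reducible refine Int.comp₂ ?_ ?_ ?_; assumption) | (with_reducible refine Int.comp₃ ?_ ?_ ?_ ?_; assumption) | (with_reducible refine IntF.comp ?_ ?_; assumption) | (with_reducible refine IntF.comp₂ ?_ ?_ ?_; assumption) | (with_reducible refine IntF.comp₃ ?_ ?_ ?_ ?_; assumption) | (with_reducible refine Int.comp₄ ?_ ?_ ?_ ?_ ?_; assumption) | with_reducible apply IntF.pair)))]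

theorem Ch_succ (hU : UB M U) (hq : IntF M q) {n : INat M} {a b : α} {s : R} :
    Ch U q n.succ a b s ↔ ∃ z j s', Ch U q n a z s' ∧ VV U j z b ∧ s = s' + q j := by
  have hi := int_VV hU
  have hi' := int_ch hU hq
  unfold Ch
  have : ch U q n.succ = sep M fun c : (α × α) × R => ∃ z j s, ((c.1.1, z), s) ∈ ch U q n ∧
      VV U j z c.1.2 ∧ c.2 = s + q j := by
    conv_lhs => unfold ch
    exact irec_succ (by (repeat' (first | with_reducible exact IntF.id | with_reducible exact IntF.fst' | with_reducible exact IntF.snd' | with_reducible exact IntF.const _ | with_reducible exact Int.const _ | assumption | with_reducible apply Int.and | with_reducible apply Int.or | with_reducible apply Int.not | with_reducible apply Int.imp | with_reducible apply Int.iff | with_reducible apply Int.ne | with_reducible apply Int.eq | with_reducible apply Int.mem | with_reducible apply Int.subset | with_reducible apply Int.ltN | with_reducible apply Int.leN | with_reducible apply Int.fin | with_reducible apply Int.unique | with_reducible apply Int.all | with_reducible apply Int.ex | with_reducible apply IntF.fst | with_reducible apply IntF.snd | with_reducible apply IntF.app | with_reducible apply IntF.ite | with_reducible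 apply IntF.sep | with_reducible apply IntF.lam | with_reducible apply IntF.insert | with_reducible apply IntF.singleton | with_reducible apply IntF.union | with_reducible apply IntF.inter | with_reducible apply IntF.sdiff | with_reducible apply IntF.isUnion | with_reducible apply IntF.iimage | with_reducible apply IntF.the | with_reducible apply IntF.irec | with_reducible_and_instances apply IntF.add | with_reducible_and_instances apply IntF.mul | with_reducible apply IntF.succ | with_reducible apply IntF.val | with_reducible_and_instances apply Pool.Agent.Helper672.ZFA.Int.le | with_reducible_and_instances apply Pool.Agent.Helper672.ZFA.Int.lt | with_reducible_and_instances apply IntF.sub | with_reducible_and_instances apply IntF.neg | with_reducible_and_instances apply IntF.inv | with_reducible_and_instances apply IntF.div | with_reducible apply IntF.mk | (with_reducible refine Int.comp ?_ ?_; assumption) | (with_reducible refine Int.comp₂ ?_ ?_ ?_; assumption) | (with_reducible refine Int.comp₃ ?_ ?_ ?_ ?_; assumption) | (with_reducible refine IntF.comp ?_ ?_; assumption) | (with_reducible refine IntF.comp₂ ?_ ?_ ?_; assumption) | (with_reducible refine IntF.comp₃ ?_ ?_ ?_ ?_; assumption) |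 (with_reducible refine Int.comp₄ ?_ ?_ ?_ ?_ ?_; assumption) | with_reducible apply IntF.pair))) n
  rw [this, mem_sep (by (repeat' (first | with_reducible exact IntF.id | with_reducible exact IntF.fst' | with_reducible exact IntF.snd' | with_reducible exact IntF.const _ | with_reducible exact Int.const _ | assumption | with_reducible apply Int.and | with_reducible apply Int.or | with_reducible apply Int.not | with_reducible apply Int.imp | with_reducible apply Int.iff | with_reducible apply Int.ne | with_reducible apply Int.eq | with_reducible apply Int.mem | with_reducible apply Int.subset | with_reducible apply Int.ltN | with_reducible apply Int.leN | with_reducible apply Int.fin | with_reducible apply Int.unique | with_reducible apply Int.all | with_reducible apply Int.ex | with_reducible apply IntF.fst | with_reducible apply IntF.snd | with_reducible apply IntF.app | with_reducible apply IntF.ite | with_reducible apply IntF.sep | with_reducible apply IntF.lam | with_reducible apply IntF.insert | with_reducible apply IntF.singleton | with_reducible apply IntF.union | with_reducible apply IntF.inter | with_reducible apply IntF.sdiff | with_reducible apply IntF.isUnion | with_reducible apply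 IntF.iimage | with_reducible apply IntF.the | with_reducible apply IntF.irec | with_reducible_and_instances apply IntF.add | with_reducible_and_instances apply IntF.mul | with_reducible apply IntF.succ | with_reducible apply IntF.val | with_reducible_and_instances apply Pool.Agent.Helper672.ZFA.Int.le | with_reducible_and_instances apply Pool.Agent.Helper672.ZFA.Int.lt | with_reducible_and_instances apply IntF.sub | with_reducible_and_instances apply IntF.neg | with_reducible_and_instances apply IntF.inv | with_reducible_and_instances apply IntF.div | with_reducible apply IntF.mk | (with_reducible refine Int.comp ?_ ?_; assumption) | (with_reducible refine Int.comp₂ ?_ ?_ ?_; assumption) | (with_reducible refine Int.comp₃ ?_ ?_ ?_ ?_; assumption) | (with_reducible refine IntF.comp ?_ ?_; assumption) | (with_reducible refine IntF.comp₂ ?_ ?_ ?_; assumption) | (with_reducible refine IntF.comp₃ ?_ ?_ ?_ ?_; assumption) | (with_reducible refine Int.comp₄ ?_ ?_ ?_ ?_ ?_; assumption) | with_reducible apply IntF.pair)))]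

theorem Ch_nonneg (hU : UB M U) (hq : HS M q) : ∀ (n : INat M) (a b : α) (s : R),
    Ch U q n a b s → 0 ≤ s := by
  have hi := int_Ch hU hq.int
  refine INat.ind (by (repeat' (first | with_reducible exact IntF.id | with_reducible exact IntF.fst' | with_reducible exact IntF.snd' | with_reducible exact IntF.const _ | with_reducible exact Int.const _ | assumption | with_reducible apply Int.and | with_reducible apply Int.or | with_reducible apply Int.not | with_reducible apply Int.imp | with_reducible apply Int.iff | with_reducible apply Int.ne | with_reducible apply Int.eq | with_reducible apply Int.mem | with_reducible apply Int.subset | with_reducible apply Int.ltN | with_reducible apply Int.leN | with_reducible apply Int.fin | with_reducible apply Int.unique | with_reducible apply Int.all | with_reducible apply Int.ex | with_reducible apply IntF.fst | with_reducible apply IntF.snd | with_reducible apply IntF.app | with_reducible apply IntF.ite | with_reducible apply IntF.sep | with_reducible apply IntF.lam | with_reducible apply IntF.insert | with_reducible apply IntF.singleton | with_reducible apply IntF.union | with_reducible apply IntF.inter | with_reducible apply IntF.sdiff | with_reducible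 apply IntF.isUnion | with_reducible apply IntF.iimage | with_reducible apply IntF.the | with_reducible apply IntF.irec | with_reducible_and_instances apply IntF.add | with_reducible_and_instances apply IntF.mul | with_reducible apply IntF.succ | with_reducible apply IntF.val | with_reducible_and_instances apply Pool.Agent.Helper672.ZFA.Int.le | with_reducible_and_instances apply Pool.Agent.Helper672.ZFA.Int.lt | with_reducible_and_instances apply IntF.sub | with_reducible_and_instances apply IntF.neg | with_reducible_and_instances apply IntF.inv | with_reducible_and_instances apply IntF.div | with_reducible apply IntF.mk | (with_reducible refine Int.comp ?_ ?_; assumption) | (with_reducible refine Int.comp₂ ?_ ?_ ?_; assumption) | (with_reducible refine Int.comp₃ ?_ ?_ ?_ ?_; assumption) | (with_reducible refine IntF.comp ?_ ?_; assumption) | (with_reducible refine IntF.comp₂ ?_ ?_ ?_; assumption) | (with_reducible refine IntF.comp₃ ?_ ?_ ?_ ?_; assumption) | (with_reducible refine Int.comp₄ ?_ ?_ ?_ ?_ ?_; assumption) | with_reducible apply IntF.pair))) ?_ ?_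
  · intro a b s h
    rw [((Ch_zero hU hq.int).1 h).2]
  · intro n ih a b s h
    obtain ⟨z, j, s', h1, h2, rfl⟩ := (Ch_succ hU hq.int).1 h
    have := ih _ _ _ h1
    have := hq.pos j
    linarith

/-- There is a chain of weight `s`. -/
def CC (U : INat M → α → α → Prop) (q : INat M → R) (a b : α) (s : R) : Prop :=
  ∃ n, Ch U q n a b s

theorem int_CC (hU : UB M U) (hq : IntF M q) :
    Int M (fun c : (α × α) × R => CC U q c.1.1 c.1.2 c.2) := by
  have hi := int_Ch hU hq
  unfold CC
  (repeat' (first | with_reducible exact IntF.id | with_reducible exact IntF.fst' | with_reducible exact IntF.snd' | with_reducible exact IntF.const _ | with_reducible exact Int.const _ | assumption | with_reducible apply Int.and | with_reducible apply Int.or | with_reducible apply Int.not | with_reducible apply Int.imp | with_reducible apply Int.iff | with_reducible apply Int.ne | with_reducible apply Int.eq | with_reducible apply Int.mem | with_reducible apply Int.subset | with_reducible apply Int.ltN | with_reducible apply Int.leN | with_reducible apply Int.fin | with_reducible apply Int.unique | with_reducible apply Int.all | with_reducible apply Int.ex | with_reducible apply IntF.fst | with_reducible apply IntF.snd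 | with_reducible apply IntF.app | with_reducible apply IntF.ite | with_reducible apply IntF.sep | with_reducible apply IntF.lam | with_reducible apply IntF.insert | with_reducible apply IntF.singleton | with_reducible apply IntF.union | with_reducible apply IntF.inter | with_reducible apply IntF.sdiff | with_reducible apply IntF.isUnion | with_reducible apply IntF.iimage | with_reducible apply IntF.the | with_reducible apply IntF.irec | with_reducible_and_instances apply IntF.add | with_reducible_and_instances apply IntF.mul | with_reducible apply IntF.succ | with_reducible apply IntF.val | with_reducible_and_instances apply Pool.Agent.Helper672.ZFA.Int.le | with_reducible_and_instances apply Pool.Agent.Helper672.ZFA.Int.lt | with_reducible_and_instances apply IntF.sub | with_reducible_and_instances apply IntF.neg | with_reducible_and_instances apply IntF.inv | with_reducible_and_instances apply IntF.div | with_reducible apply IntF.mk | (with_reducible refine Int.comp ?_ ?_; assumption) | (with_reducible refine Int.comp₂ ?_ ?_ ?_; assumption) | (with_reducible refine Int.comp₃ ?_ ?_ ?_ ?_; assumption) | (with_reducible refine IntF.comp ?_ ?_; assumption) | (with_reducible refine IntF.comp₂ ?_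 ?_ ?_; assumption) | (with_reducible refine IntF.comp₃ ?_ ?_ ?_ ?_; assumption) | (with_reducible refine Int.comp₄ ?_ ?_ ?_ ?_ ?_; assumption) | with_reducible apply IntF.pair))

theorem CC_refl (hU : UB M U) (hq : HS M q) (a : α) : CC U q a a 0 :=
  ⟨0, (Ch_zero hU hq.int).2 ⟨rfl, rfl⟩⟩

theorem CC_step (hU : UB M U) (hq : HS M q) {a b : α} {j : INat M} (h : VV U j a b) :
    CC U q a b (q j) :=
  ⟨_, (Ch_succ hU hq.int).2 ⟨a, j, 0, (Ch_zero hU hq.int).2 ⟨rfl, rfl⟩, h, by ring⟩⟩

theorem CC_trans (hU : UB M U) (hq : HS M q) {a b c : α} {s t : R} (h1 : CC U q a b s)
    (h2 : CC U q b c t) : CC U q a c (s + t) := by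
  have hi := int_Ch hU hq.int
  have hi' := int_CC hU hq.int
  obtain ⟨m, hm⟩ := h2
  revert c t
  suffices H : ∀ c t, Ch U q m b c t → CC U q a c (s + t) from fun {c t} h => H c t h
  refine INat.ind (p := fun m => ∀ c t, Ch U q m b c t → CC U q a c (s + t)) (by (repeat' (first | with_reducible exact IntF.id | with_reducible exact IntF.fst' | with_reducible exact IntF.snd' | with_reducible exact IntF.const _ | with_reducible exact Int.const _ | assumption | with_reducible apply Int.and | with_reducible apply Int.or | with_reducible apply Int.not | with_reducible apply Int.imp | with_reducible apply Int.iff | with_reducible apply Int.ne | with_reducible apply Int.eq | with_reducible apply Int.mem | with_reducible apply Int.subset | with_reducible apply Int.ltN | with_reducible apply Int.leN | with_reducible apply Int.fin | with_reducible apply Int.unique | with_reducible apply Int.all | with_reducible apply Int.ex | with_reducible apply IntF.fst | with_reducible apply IntF.snd | with_reducible apply IntF.app | with_reducible apply IntF.ite | with_reducible apply IntF.sep | with_reducible apply IntF.lam | with_reducible apply IntF.insert | with_reducible apply IntF.singleton | with_reducible apply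 IntF.union | with_reducible apply IntF.inter | with_reducible apply IntF.sdiff | with_reducible apply IntF.isUnion | with_reducible apply IntF.iimage | with_reducible apply IntF.the | with_reducible apply IntF.irec | with_reducible_and_instances apply IntF.add | with_reducible_and_instances apply IntF.mul | with_reducible apply IntF.succ | with_reducible apply IntF.val | with_reducible_and_instances apply Pool.Agent.Helper672.ZFA.Int.le | with_reducible_and_instances apply Pool.Agent.Helper672.ZFA.Int.lt | with_reducible_and_instances apply IntF.sub | with_reducible_and_instances apply IntF.neg | with_reducible_and_instances apply IntF.inv | with_reducible_and_instances apply IntF.div | with_reducible apply IntF.mk | (with_reducible refine Int.comp ?_ ?_; assumption) | (with_reducible refine Int.comp₂ ?_ ?_ ?_; assumption) | (with_reducible refine Int.comp₃ ?_ ?_ ?_ ?_; assumption) | (with_reducible refine IntF.comp ?_ ?_; assumption) | (with_reducible refine IntF.comp₂ ?_ ?_ ?_; assumption) | (with_reducible refine IntF.comp₃ ?_ ?_ ?_ ?_; assumption) | (with_reducible refine Int.comp₄ ?_ ?_ ?_ ?_ ?_; assumption) | with_reducible apply IntF.pair))) ?_ ?_ m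
  · intro c t h
    obtain ⟨rfl, rfl⟩ := (Ch_zero hU hq.int).1 h
    rw [add_zero]
    exact h1
  · intro m ih c t h
    obtain ⟨z, j, s', h3, h4, rfl⟩ := (Ch_succ hU hq.int).1 h
    obtain ⟨n, hn⟩ := ih _ _ h3
    exact ⟨n.succ, (Ch_succ hU hq.int).2 ⟨z, j, _, hn, h4, by ring⟩⟩

theorem CC_symm (hU : UB M U) (hq : HS M q) {a b : α} {s : R} (h : CC U q a b s) :
    CC U q b a s := by
  have hi := int_Ch hU hq.int
  have hi' := int_CC hU hq.int
  obtain ⟨m, hm⟩ := h
  revert b s
  suffices H : ∀ b s, Ch U q m a b s → CC U q b a s from fun {b s} h => H b s h
  refine INat.ind (p := fun m => ∀ b s, Ch U q m a b s → CC U q b a s) (by (repeat' (first | with_reducible exact IntF.id | with_reducible exact IntF.fst' | with_reducible exact IntF.snd' | with_reducible exact IntF.const _ | with_reducible exact Int.const _ | assumption | with_reducible apply Int.and | with_reducible apply Int.or | with_reducible apply Int.not | with_reducible apply Int.imp | with_reducible apply Int.iff | with_reducible apply Int.ne | with_reducible apply Int.eq | with_reducible apply Int.mem | with_reducible apply Int.subset | with_reducible apply Int.ltN | with_reducible apply Int.leN | with_reducible apply Int.fin | with_reducible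 apply Int.unique | with_reducible apply Int.all | with_reducible apply Int.ex | with_reducible apply IntF.fst | with_reducible apply IntF.snd | with_reducible apply IntF.app | with_reducible apply IntF.ite | with_reducible apply IntF.sep | with_reducible apply IntF.lam | with_reducible apply IntF.insert | with_reducible apply IntF.singleton | with_reducible apply IntF.union | with_reducible apply IntF.inter | with_reducible apply IntF.sdiff | with_reducible apply IntF.isUnion | with_reducible apply IntF.iimage | with_reducible apply IntF.the | with_reducible apply IntF.irec | with_reducible_and_instances apply IntF.add | with_reducible_and_instances apply IntF.mul | with_reducible apply IntF.succ | with_reducible apply IntF.val | with_reducible_and_instances apply Pool.Agent.Helper672.ZFA.Int.le | with_reducible_and_instances apply Pool.Agent.Helper672.ZFA.Int.lt | with_reducible_and_instances apply IntF.sub | with_reducible_and_instances apply IntF.neg | with_reducible_and_instances apply IntF.inv | with_reducible_and_instances apply IntF.div | with_reducible apply IntF.mk | (with_reducible refine Int.comp ?_ ?_; assumption) | (with_reducible refine Int.comp₂ ?_ ?_ ?_; assumption) | (with_reducible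 refine Int.comp₃ ?_ ?_ ?_ ?_; assumption) | (with_reducible refine IntF.comp ?_ ?_; assumption) | (with_reducible refine IntF.comp₂ ?_ ?_ ?_; assumption) | (with_reducible refine IntF.comp₃ ?_ ?_ ?_ ?_; assumption) | (with_reducible refine Int.comp₄ ?_ ?_ ?_ ?_ ?_; assumption) | with_reducible apply IntF.pair))) ?_ ?_ m
  · intro c t h
    obtain ⟨rfl, rfl⟩ := (Ch_zero hU hq.int).1 h
    exact CC_refl hU hq a
  · intro m ih c t h
    obtain ⟨z, j, s', h3, h4, rfl⟩ := (Ch_succ hU hq.int).1 h
    have h5 := CC_trans hU hq (CC_step hU hq (h4.symm hU)) (ih _ _ h3)
    rw [add_comm] at h5
    exact h5

/-- Splitting a chain. -/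
theorem Ch_split (hU : UB M U) (hq : HS M q) : ∀ (n : INat M) (a b : α) (s t : R), 0 ≤ t →
    t ≤ s → Ch U q n.succ a b s → ∃ (n₁ n₂ : INat M) (z w : α) (s₁ s₂ : R) (j : INat M),
      n₁ ≤ n ∧ n₂ ≤ n ∧ Ch U q n₁ a z s₁ ∧ VV U j z w ∧ Ch U q n₂ w b s₂ ∧
        s₁ + q j + s₂ = s ∧ s₁ ≤ t ∧ s₂ + t ≤ s := by
  have hi := int_Ch hU hq.int
  have hi' := int_VV hU
  have hqi := hq.int
  refine INat.ind (by (repeat' (first | with_reducible exact IntF.id | with_reducible exact IntF.fst' | with_reducible exact IntF.snd' | with_reducible exact IntF.const _ | with_reducible exact Int.const _ | assumption | with_reducible apply Int.and | with_reducible apply Int.or | with_reducible apply Int.not | with_reducible apply Int.imp | with_reducible apply Int.iff | with_reducible apply Int.ne | with_reducible apply Int.eq | with_reducible apply Int.mem | with_reducible apply Int.subset | with_reducible apply Int.ltN | with_reducible apply Int.leN | with_reducible apply Int.fin | with_reducible apply Int.unique | with_reducible apply Int.all | with_reducible apply Int.ex | with_reducible apply IntF.fst | with_reducible apply IntF.snd | with_reducible apply IntF.app | with_reducible apply IntF.ite | with_reducible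 apply IntF.sep | with_reducible apply IntF.lam | with_reducible apply IntF.insert | with_reducible apply IntF.singleton | with_reducible apply IntF.union | with_reducible apply IntF.inter | with_reducible apply IntF.sdiff | with_reducible apply IntF.isUnion | with_reducible apply IntF.iimage | with_reducible apply IntF.the | with_reducible apply IntF.irec | with_reducible_and_instances apply IntF.add | with_reducible_and_instances apply IntF.mul | with_reducible apply IntF.succ | with_reducible apply IntF.val | with_reducible_and_instances apply Pool.Agent.Helper672.ZFA.Int.le | with_reducible_and_instances apply Pool.Agent.Helper672.ZFA.Int.lt | with_reducible_and_instances apply IntF.sub | with_reducible_and_instances apply IntF.neg | with_reducible_and_instances apply IntF.inv | with_reducible_and_instances apply IntF.div | with_reducible apply IntF.mk | (with_reducible refine Int.comp ?_ ?_; assumption) | (with_reducible refine Int.comp₂ ?_ ?_ ?_; assumption) | (with_reducible refine Int.comp₃ ?_ ?_ ?_ ?_; assumption) | (with_reducible refine IntF.comp ?_ ?_; assumption) | (with_reducible refine IntF.comp₂ ?_ ?_ ?_; assumption) | (with_reducible refine IntF.comp₃ ?_ ?_ ?_ ?_; assumption) |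 (with_reducible refine Int.comp₄ ?_ ?_ ?_ ?_ ?_; assumption) | with_reducible apply IntF.pair))) ?_ ?_
  · intro a b s t ht hts h
    obtain ⟨z, j, s', h3, h4, rfl⟩ := (Ch_succ hU hq.int).1 h
    obtain ⟨rfl, rfl⟩ := (Ch_zero hU hq.int).1 h3
    refine ⟨0, 0, a, b, 0, 0, j, le_rfl, le_rfl, h3, h4, (Ch_zero hU hq.int).2 ⟨rfl, rfl⟩,
      by ring, ht, by linarith⟩
  · intro n ih a b s t ht hts h
    obtain ⟨z, j, s', h3, h4, rfl⟩ := (Ch_succ hU hq.int).1 h
    rcases le_or_gt s' t with h5 | h5
    · exact ⟨n.succ, 0, z, b, s', 0, j, le_rfl, INat.zero_le _, h3, h4,
        (Ch_zero hU hq.int).2 ⟨rfl, rfl⟩, by ring, h5, by linarith⟩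
    · obtain ⟨n₁, n₂, z', w, s₁, s₂, j', h6, h7, h8, h9, h10, h11, h12, h13⟩ :=
        ih a z s' t ht h5.le h3
      refine ⟨n₁, n₂.succ, z', w, s₁, s₂ + q j, j', h6.trans (INat.lt_succ_self n).le, ?_, h8, h9,
        (Ch_succ hU hq.int).2 ⟨z, j, s₂, h10, h4, rfl⟩, by linarith, h12, by linarith⟩
      exact INat.succ_le_iff.2 (h7.trans_lt (INat.lt_succ_self n))

/-- The main lemma. -/
theorem Ch_key (hU : UB M U) (hq : HS M q) : ∀ (n m : INat M), m ≤ n → ∀ (a b : α) (s : R)
    (k : INat M), Ch U q m a b s → s ≤ q k.succ → VV U k a b := by
  have hi := int_Ch hU hq.int
  have hi' := int_VV hU
  have hqi := hq.int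
  have base : ∀ (a b : α) (s : R) (k : INat M), Ch U q 0 a b s → VV U k a b := by
    intro a b s k h
    obtain ⟨rfl, rfl⟩ := (Ch_zero hU hq.int).1 h
    exact VV_refl hU k a
  refine INat.ind (by (repeat' (first | with_reducible exact IntF.id | with_reducible exact IntF.fst' | with_reducible exact IntF.snd' | with_reducible exact IntF.const _ | with_reducible exact Int.const _ | assumption | with_reducible apply Int.and | with_reducible apply Int.or | with_reducible apply Int.not | with_reducible apply Int.imp | with_reducible apply Int.iff | with_reducible apply Int.ne | with_reducible apply Int.eq | with_reducible apply Int.mem | with_reducible apply Int.subset | with_reducible apply Int.ltN | with_reducible apply Int.leN | with_reducible apply Int.fin | with_reducible apply Int.unique | with_reducible apply Int.all | with_reducible apply Int.ex | with_reducible apply IntF.fst | with_reducible apply IntF.snd | with_reducible apply IntF.app | with_reducible apply IntF.ite | with_reducible apply IntF.sep | with_reducible apply IntF.lam | with_reducible apply IntF.insert | with_reducible apply IntF.singleton | with_reducible apply IntF.union | with_reducible apply IntF.inter | with_reducible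 apply IntF.sdiff | with_reducible apply IntF.isUnion | with_reducible apply IntF.iimage | with_reducible apply IntF.the | with_reducible apply IntF.irec | with_reducible_and_instances apply IntF.add | with_reducible_and_instances apply IntF.mul | with_reducible apply IntF.succ | with_reducible apply IntF.val | with_reducible_and_instances apply Pool.Agent.Helper672.ZFA.Int.le | with_reducible_and_instances apply Pool.Agent.Helper672.ZFA.Int.lt | with_reducible_and_instances apply IntF.sub | with_reducible_and_instances apply IntF.neg | with_reducible_and_instances apply IntF.inv | with_reducible_and_instances apply IntF.div | with_reducible apply IntF.mk | (with_reducible refine Int.comp ?_ ?_; assumption) | (with_reducible refine Int.comp₂ ?_ ?_ ?_; assumption) | (with_reducible refine Int.comp₃ ?_ ?_ ?_ ?_; assumption) | (with_reducible refine IntF.comp ?_ ?_; assumption) | (with_reducible refine IntF.comp₂ ?_ ?_ ?_; assumption) | (with_reducible refine IntF.comp₃ ?_ ?_ ?_ ?_; assumption) | (with_reducible refine Int.comp₄ ?_ ?_ ?_ ?_ ?_; assumption) | with_reducible apply IntF.pair))) ?_ ?_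
  · intro m hm a b s k h hs
    rw [le_antisymm hm (INat.zero_le m)] at h
    exact base a b s k h
  · intro n ih m hm a b s k h hs
    rcases INat.eq_zero_or_succ m with rfl | ⟨m, rfl⟩
    · exact base a b s k h
    · have hmn : m ≤ n := INat.lt_succ_iff.1 (INat.succ_le_iff.1 hm)
      have h0 := Ch_nonneg hU hq _ _ _ _ h
      obtain ⟨n₁, n₂, z, w, s₁, s₂, j, h6, h7, h8, h9, h10, h11, h12, h13⟩ :=
        Ch_split hU hq m a b s (s / 2) (by linarith) (by linarith) h
      have h14 := Ch_nonneg hU hq _ _ _ _ h8
      have h15 := Ch_nonneg hU hq _ _ _ _ h10
      have h16 := hq.half k.succ
      have v1 : VV U k.succ a z := ih n₁ (h6.trans hmn) a z s₁ k.succ h8 (by linarith)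
      have v3 : VV U k.succ w b := ih n₂ (h7.trans hmn) w b s₂ k.succ h10 (by linarith)
      have v2 : VV U k.succ z w := h9.mono (hq.le_of (by linarith))
      exact v1.comp hU v2 v3

theorem CC_key (hU : UB M U) (hq : HS M q) {a b : α} {s : R} {k : INat M} (h : CC U q a b s)
    (hs : s ≤ q k.succ) : VV U k a b := by
  obtain ⟨n, hn⟩ := h
  exact Ch_key hU hq n n le_rfl a b s k hn hs

/-- The distance. -/
noncomputable def ds (U : INat M → α → α → Prop) (q : INat M → R) (a b : α) : R :=
  the (fun c : R => (∀ s, CC U q a b s → c ≤ s) ∧ ∀ c', (∀ s, CC U q a b s → c' ≤ s) → c' ≤ c) 0

theorem int_ds (hU : UB M U) (hq : IntF M q) :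
    IntF M (fun c : α × α => ds U q c.1 c.2) := by
  have hi := int_CC hU hq
  unfold ds
  (repeat' (first | with_reducible exact IntF.id | with_reducible exact IntF.fst' | with_reducible exact IntF.snd' | with_reducible exact IntF.const _ | with_reducible exact Int.const _ | assumption | with_reducible apply Int.and | with_reducible apply Int.or | with_reducible apply Int.not | with_reducible apply Int.imp | with_reducible apply Int.iff | with_reducible apply Int.ne | with_reducible apply Int.eq | with_reducible apply Int.mem | with_reducible apply Int.subset | with_reducible apply Int.ltN | with_reducible apply Int.leN | with_reducible apply Int.fin | with_reducible apply Int.unique | with_reducible apply Int.all | with_reducible apply Int.ex | with_reducible apply IntF.fst | with_reducible apply IntF.snd | with_reducible apply IntF.app | with_reducible apply IntF.ite | with_reducible apply IntF.sep | with_reducible apply IntF.lam | with_reducible apply IntF.insert | with_reducible apply IntF.singleton | with_reducible apply IntF.union | with_reducible apply IntF.inter | with_reducible apply IntF.sdiff | with_reducible apply IntF.isUnion | with_reducible apply IntF.iimage | with_reducible apply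 IntF.the | with_reducible apply IntF.irec | with_reducible_and_instances apply IntF.add | with_reducible_and_instances apply IntF.mul | with_reducible apply IntF.succ | with_reducible apply IntF.val | with_reducible_and_instances apply Pool.Agent.Helper672.ZFA.Int.le | with_reducible_and_instances apply Pool.Agent.Helper672.ZFA.Int.lt | with_reducible_and_instances apply IntF.sub | with_reducible_and_instances apply IntF.neg | with_reducible_and_instances apply IntF.inv | with_reducible_and_instances apply IntF.div | with_reducible apply IntF.mk | (with_reducible refine Int.comp ?_ ?_; assumption) | (with_reducible refine Int.comp₂ ?_ ?_ ?_; assumption) | (with_reducible refine Int.comp₃ ?_ ?_ ?_ ?_; assumption) | (with_reducible refine IntF.comp ?_ ?_; assumption) | (with_reducible refine IntF.comp₂ ?_ ?_ ?_; assumption) | (with_reducible refine IntF.comp₃ ?_ ?_ ?_ ?_; assumption) | (with_reducible refine Int.comp₄ ?_ ?_ ?_ ?_ ?_; assumption) | with_reducible apply IntF.pair))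

theorem ds_spec (hsup : Cpl M R) (hU : UB M U) (hq : HS M q) (a b : α) :
    (∀ s, CC U q a b s → ds U q a b ≤ s) ∧
      ∀ c', (∀ s, CC U q a b s → c' ≤ s) → c' ≤ ds U q a b := by
  have hi := int_CC hU hq.int
  have hI : Int M (fun c : R => ∀ s, CC U q a b s → c ≤ s) := by
    have h1 : Int M (fun s : R => CC U q a b s) := Int.slice (p := fun (x : α × α) (s : R) =>
      CC U q x.1 x.2 s) hi (a, b)
    (repeat' (first | with_reducible exact IntF.id | with_reducible exact IntF.fst' | with_reducible exact IntF.snd' | with_reducible exact IntF.const _ | with_reducible exact Int.const _ | assumption | with_reducible apply Int.and | with_reducible apply Int.or | with_reducible apply Int.not | with_reducible apply Int.imp | with_reducible apply Int.iff | with_reducible apply Int.ne | with_reducible apply Int.eq | with_reducible apply Int.mem | with_reducible apply Int.subset | with_reducible apply Int.ltN | with_reducible apply Int.leN | with_reducible apply Int.fin | with_reducible apply Int.unique | with_reducible apply Int.all | with_reducible apply Int.ex | with_reducible apply IntF.fst | with_reducible apply IntF.snd | with_reducible apply IntF.app | with_reducible apply IntF.ite | with_reducible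 apply IntF.sep | with_reducible apply IntF.lam | with_reducible apply IntF.insert | with_reducible apply IntF.singleton | with_reducible apply IntF.union | with_reducible apply IntF.inter | with_reducible apply IntF.sdiff | with_reducible apply IntF.isUnion | with_reducible apply IntF.iimage | with_reducible apply IntF.the | with_reducible apply IntF.irec | with_reducible_and_instances apply IntF.add | with_reducible_and_instances apply IntF.mul | with_reducible apply IntF.succ | with_reducible apply IntF.val | with_reducible_and_instances apply Pool.Agent.Helper672.ZFA.Int.le | with_reducible_and_instances apply Pool.Agent.Helper672.ZFA.Int.lt | with_reducible_and_instances apply IntF.sub | with_reducible_and_instances apply IntF.neg | with_reducible_and_instances apply IntF.inv | with_reducible_and_instances apply IntF.div | with_reducible apply IntF.mk | (with_reducible refine Int.comp ?_ ?_; assumption) | (with_reducible refine Int.comp₂ ?_ ?_ ?_; assumption) | (with_reducible refine Int.comp₃ ?_ ?_ ?_ ?_; assumption) | (with_reducible refine IntF.comp ?_ ?_; assumption) | (with_reducible refine IntF.comp₂ ?_ ?_ ?_; assumption) | (with_reducible refine IntF.comp₃ ?_ ?_ ?_ ?_; assumption) |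 (with_reducible refine Int.comp₄ ?_ ?_ ?_ ?_ ?_; assumption) | with_reducible apply IntF.pair))
  obtain ⟨c, h1, h2⟩ := hsup (sep M fun c : R => ∀ s, CC U q a b s → c ≤ s)
    ⟨0, (mem_sep hI).2 fun s ⟨n, hn⟩ => Ch_nonneg hU hq n a b s hn⟩
    ⟨q 0, fun c hc => (mem_sep hI).1 hc _ (CC_step hU hq (VV_zero a b))⟩
  have h3 : (∀ s, CC U q a b s → c ≤ s) ∧ ∀ c', (∀ s, CC U q a b s → c' ≤ s) → c' ≤ c :=
    ⟨fun s hs => h2 s fun x hx => (mem_sep hI).1 hx s hs, fun c' hc' => h1 c' ((mem_sep hI).2 hc')⟩
  have h4 : ds U q a b = c := the_eq ⟨c, h3, fun c' hc' => le_antisymm (h3.2 c' hc'.1)
    (hc'.2 c h3.1)⟩ h3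
  rw [h4]
  exact h3

/-- Approximation by chains. -/
theorem ds_approx (hsup : Cpl M R) (hU : UB M U) (hq : HS M q) {a b : α} {t : R}
    (h : ds U q a b < t) : ∃ s, CC U q a b s ∧ s < t := by
  by_contra hc
  push Not at hc
  exact absurd ((ds_spec hsup hU hq a b).2 t hc) (not_le.2 h)

/-- Separated uniformities with a countable base are metrizable. -/
theorem metrization (hsup : Cpl M R) (hU : UB M U) (hq : HS M q) :
    (∀ a b, ds U q a b = 0 ↔ a = b) ∧ (∀ a b, ds U q a b = ds U q b a) ∧
      (∀ a b c, ds U q a c ≤ ds U q a b + ds U q b c) ∧
      (∀ ε, 0 < ε → ∃ n, ∀ a b, U n a b → ds U q a b < ε) ∧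
      ∀ n, ∃ ε, 0 < ε ∧ ∀ a b, ds U q a b < ε → U n a b := by
  have hsp := ds_spec hsup hU hq
  have hap : ∀ {a b : α} {t : R}, ds U q a b < t → ∃ s, CC U q a b s ∧ s < t :=
    fun h => ds_approx hsup hU hq h
  have hnn : ∀ a b, 0 ≤ ds U q a b := fun a b => (hsp a b).2 0 fun s ⟨n, hn⟩ =>
    Ch_nonneg hU hq n a b s hn
  have hlast : ∀ n, ∃ ε, 0 < ε ∧ ∀ a b, ds U q a b < ε → U n a b := by
    intro n
    refine ⟨q n.succ.succ, hq.pos _, fun a b hab => ?_⟩
    obtain ⟨s, h1, h2⟩ := hap hab
    exact (CC_key hU hq h1 h2.le).of hU
  refine ⟨fun a b => ⟨fun h => hU.sep a b fun n => ?_, ?_⟩, fun a b => ?_, fun a b c => ?_,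
    fun ε hε => ?_, hlast⟩
  · obtain ⟨ε, hε, h1⟩ := hlast n
    exact h1 a b (by rw [h]; exact hε)
  · rintro rfl
    exact le_antisymm ((hsp a a).1 0 (CC_refl hU hq a)) (hnn a a)
  · refine le_antisymm ((hsp b a).2 _ fun s hs => (hsp a b).1 s (CC_symm hU hq hs))
      ((hsp a b).2 _ fun s hs => (hsp b a).1 s (CC_symm hU hq hs))
  · by_contra hlt
    rw [not_le] at hlt
    have e : 0 < (ds U q a c - (ds U q a b + ds U q b c)) / 2 := by linarith
    obtain ⟨s, h1, h2⟩ := hap (a := a) (b := b) (lt_add_of_pos_right _ e)
    obtain ⟨t, h3, h4⟩ := hap (a := b) (b := c) (lt_add_of_pos_right _ e)
    have h5 := (hsp a c).1 _ (CC_trans hU hq h1 h3)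
    linarith
  · obtain ⟨k, hk⟩ := hq.lim ε hε
    exact ⟨ph U k, fun a b hab => ((hsp a b).1 _ (CC_step hU hq (VV_of hU hab))).trans_lt hk⟩

end

end Pool.Agent.Q211.ZQ
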