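import Pool.Agent.Q211.ZQ.B

/-!
# Quasi-metrizable spaces in a model of set theory: definitions, and the theorem
-/

set_option maxHeartbeats 1000000
set_option linter.all false

namespace Pool.Agent.Q211.QMet

open FirstOrder FirstOrder.Language
open Pool.Agent.Helper672.Plain (LSet Mem IsOrdPair El)
open Pool.Agent.H310Metric (IsMetric)
open Pool.Agent.H635Amen (IsReals)

universe u

section

variable {M : Type u} [LSet.Structure M]

/-- `d` is a quasi-metric on the set `x` with values in `r`, and `d` is in the model: the set of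
the `((a, b), c)` with `d a b = c` is an element of the model. -/
structure IsQuasiMetric {x r : M} [Field (El r)] [LinearOrder (El r)]
    (d : El x → El x → El r) : Prop where
  graph : ∃ g, ∀ (a b : El x) (c : El r),
    d a b = c ↔ ∃ p q, IsOrdPair p a.1 b.1 ∧ IsOrdPair q p c.1 ∧ Mem q g
  nonneg : ∀ a b, 0 ≤ d a b
  self : ∀ a, d a a = 0
  tri : ∀ a b c, d a c ≤ d a b + d b c
  eq : ∀ a b, d a b = 0 → d b a = 0 → a = b

/-- The topology `t` on the set `x` is induced by `d`: a subset `u` of `x` is open if and only if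
for every point `a` of `u` some ball `{b | d a b < ε}` is included in `u`. -/
def Induces {x r : M} [Field (El r)] [LinearOrder (El r)] (t : M) (d : El x → El x → El r) :
    Prop :=
  ∀ u, Mem u t ↔ (∀ z, Mem z u → Mem z x) ∧ ∀ a : El x, Mem a.1 u →
    ∃ ε : El r, 0 < ε ∧ ∀ b : El x, d a b < ε → Mem b.1 u

/-- The topology `t` on `x` is induced by a quasi-metric with values in the field of real numbers
of the model. -/
def IsQuasiMetrizable (t x : M) : Prop :=
  ∃ (r : M) (_ : Field (El r)) (_ : LinearOrder (El r)) (_ : IsStrictOrderedRing (El r)),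
    IsReals r ∧ ∃ d : El x → El x → El r, IsQuasiMetric d ∧ Induces t d

/-- The topology `t` on `x` is induced by a metric with values in the field of real numbers of
the model. -/
def IsMetrizable (t x : M) : Prop :=
  ∃ (r : M) (_ : Field (El r)) (_ : LinearOrder (El r)) (_ : IsStrictOrderedRing (El r)),
    IsReals r ∧ ∃ d : El x → El x → El r, IsMetric d ∧ Induces t d

end

end Pool.Agent.Q211.QMet

namespace Pool.Agent.Q211.ZQ

open FirstOrder FirstOrder.Language
open Pool.Agent.Helper672.ZFA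
open Pool.Agent.H310
open Pool.Agent.H310Cards
open Pool.Agent.H310Top (IsClosed IsTopology IsCompact IsHausdorff)
open Pool.Agent.H310Metric (IsMetric)
open Pool.Agent.H635Amen (IsReals)
open Pool.Agent.Q212.ZA
open Pool.Agent.Q212.ZB
open Pool.Agent.Q212.ZC
open Pool.Agent.Q211.QMet

universe u u₁ u₂ u₃ u₄

attribute [local instance] Helper672.Plain.toL

section

variable {M : Type u} [Helper672.Plain.LSet.Structure M] [hZ : Helper672.Plain.Zermelo M]

attribute [local instance] Pool.Agent.Q212.ZB.instModelL Pool.Agent.Q212.ZB.instPEl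

variable {t x : M}

theorem cpl_of {r : M} [Field (Helper672.Plain.El r)] [LinearOrder (Helper672.Plain.El r)]
    [IsStrictOrderedRing (Helper672.Plain.El r)] (hr : IsReals r) :
    Cpl M (Helper672.Plain.El r) := by
  intro S hne hbd
  obtain ⟨a, ha⟩ := hne
  obtain ⟨b, hb⟩ := hbd
  obtain ⟨c, h1, h2⟩ := hr.complete ⟨code S, code_sub⟩ ⟨a.1, mem_codeU'.2 ha⟩
    ⟨b, fun z hz => hb z (mem_codeU'.1 hz)⟩
  exact ⟨c, fun z hz => h1 (mem_codeU'.2 hz), fun b hb => h2 fun z hz => hb z (mem_codeU'.1 hz)⟩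

theorem intF_of_graph {r : M} {d : Helper672.Plain.El x → Helper672.Plain.El x → Helper672.Plain.El r}
    (h : ∃ g, ∀ (a b : Helper672.Plain.El x) (c : Helper672.Plain.El r),
      d a b = c ↔ ∃ p q, Helper672.Plain.IsOrdPair p a.1 b.1 ∧
        Helper672.Plain.IsOrdPair q p c.1 ∧ Helper672.Plain.Mem q g) :
    IntF M (fun q : Helper672.Plain.El x × Helper672.Plain.El x => d q.1 q.2) := by
  obtain ⟨g, hg⟩ := h
  exact ⟨g, fun q => ((hg q.1.1 q.1.2 q.2).trans opGraph_iff).symm⟩

theorem graph_of_intF {r : M} {d : Helper672.Plain.El x → Helper672.Plain.El x → Helper672.Plain.El r}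
    (h : IntF M (fun q : Helper672.Plain.El x × Helper672.Plain.El x => d q.1 q.2)) :
    ∃ g, ∀ (a b : Helper672.Plain.El x) (c : Helper672.Plain.El r),
      d a b = c ↔ ∃ p q, Helper672.Plain.IsOrdPair p a.1 b.1 ∧
        Helper672.Plain.IsOrdPair q p c.1 ∧ Helper672.Plain.Mem q g := by
  obtain ⟨g, hg⟩ := h
  exact ⟨g, fun a b c => (hg ((a, b), c)).symm.trans opGraph_iff.symm⟩

/-- Open sets of a space with a quasi-metric. -/
theorem opT_iff {r : M} [Field (Helper672.Plain.El r)] [LinearOrder (Helper672.Plain.El r)]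
    {d : Helper672.Plain.El x → Helper672.Plain.El x → Helper672.Plain.El r} (ht : Induces t d)
    {U : IPow M (Helper672.Plain.El x)} :
    Mem (code U) t ↔ ∀ a, a ∈ U → ∃ ε, 0 < ε ∧ ∀ b, d a b < ε → b ∈ U := by
  refine (ht (code U)).trans ⟨fun h a ha => ?_, fun h => ⟨code_sub, fun a ha => ?_⟩⟩
  · obtain ⟨ε, hε, h1⟩ := h.2 a (mem_codeU'.2 ha)
    exact ⟨ε, hε, fun b hb => mem_codeU'.1 (h1 b hb)⟩
  · obtain ⟨ε, hε, h1⟩ := h a (mem_codeU'.1 ha)
    exact ⟨ε, hε, fun b hb => mem_codeU'.2 (h1 b hb)⟩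

/-- The internal form of the hypotheses. -/
theorem qm_of {r : M} [Field (Helper672.Plain.El r)] [LinearOrder (Helper672.Plain.El r)]
    [IsStrictOrderedRing (Helper672.Plain.El r)] (hc : IsCompact t x) (hh : IsHausdorff t x)
    {d : Helper672.Plain.El x → Helper672.Plain.El x → Helper672.Plain.El r}
    (hd : IsQuasiMetric d) (ht : Induces t d) : QM M d where
  int := intF_of_graph hd.graph
  nonneg := hd.nonneg
  self := hd.self
  tri := hd.tri
  haus a b hab := by
    obtain ⟨u, v, hu, hv, hau, hbv, h1⟩ := hh a.1 b.1 a.2 b.2 fun h => hab (Subtype.ext h)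
    obtain ⟨ε₁, h2, h3⟩ := ((ht u).1 hu).2 a hau
    obtain ⟨ε₂, h4, h5⟩ := ((ht v).1 hv).2 b hbv
    refine ⟨min ε₁ ε₂, lt_min h2 h4, fun z hz => ?_⟩
    exact h1 z.1 (h3 z (hz.1.trans_le (min_le_left _ _))) (h5 z (hz.2.trans_le (min_le_right _ _)))
  cpt C hC hcov := by
    obtain ⟨c', h1, h2, h3⟩ := hc (code C) (fun u hu => by
        obtain ⟨U, hU, rfl⟩ := code_mem_code.1 hu
        exact (opT_iff ht).2 (hC U hU)) (fun z hz => by
        obtain ⟨U, hU, h4⟩ := hcov ⟨z, hz⟩
        exact ⟨code U, mcI.2 hU, mem_codeU'.2 h4⟩)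
    obtain ⟨C', rfl⟩ := exists_code' (α := IPow M (Helper672.Plain.El x))
      (a := dom M (IPow M (Helper672.Plain.El x))) (u := c') (fun z => mem_dom) (fun z hz => by
        obtain ⟨U, hU, rfl⟩ := code_mem_code.1 (h2 z hz)
        exact mem_dom.2 ⟨U, rfl⟩)
    refine ⟨C', isFinite_code.1 h1, fun U hU => mcI.1 (h2 _ (mcI.2 hU)), fun a => ?_⟩
    obtain ⟨u, hu, hau⟩ := h3 a.1 a.2
    obtain ⟨U, hU, rfl⟩ := code_mem_code.1 hu
    exact ⟨U, hU, mem_codeU'.1 hau⟩

/-- Compact Hausdorff quasi-metrizable spaces are metrizable. -/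
theorem metrizable_of_qm (hc : IsCompact t x) (hh : IsHausdorff t x)
    (hq : IsQuasiMetrizable t x) : IsMetrizable t x := by
  obtain ⟨r, _, _, _, hr, d, hd, ht⟩ := hq
  letI := reals_add hr
  letI := reals_mul hr
  letI := reals_le hr
  have hsup := cpl_of hr
  obtain ⟨q, hq⟩ := exists_hs (M := M) hsup
  have hQ := qm_of hc hh hd ht
  have hU := hQ.ub hq
  obtain ⟨h1, h2, h3, h4, h5⟩ := metrization hsup hU hq
  refine ⟨r, _, _, inferInstance, hr, ds (En d q) q, ⟨graph_of_intF (int_ds hU hq.int), h1, h2,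
    h3⟩, fun u => ?_⟩
  rw [ht u]
  refine and_congr_right fun hu => forall_congr' fun a => imp_congr_right fun ha => ⟨?_, ?_⟩
  · rintro ⟨ε, hε, h6⟩
    obtain ⟨m, hm⟩ := hQ.near hq a hε
    obtain ⟨δ, hδ, h7⟩ := h5 m
    refine ⟨δ, hδ, fun b hb => h6 b (hm a b ?_ (h7 a b hb).symm)⟩
    rw [hd.self]
    exact hq.pos m
  · rintro ⟨ε, hε, h6⟩
    obtain ⟨n, hn⟩ := h4 ε hε
    refine ⟨q n, hq.pos n, fun b hb => h6 b (hn a b ⟨a, ?_, hb⟩)⟩
    rw [hd.self]
    exact hq.pos n

end

end Pool.Agent.Q211.ZQ
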