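import Pool.Agent.Q211.ZQ.C

/-!
# Countable products of quasi-metrizable spaces in a model of set theory
-/

set_option maxHeartbeats 1000000
set_option linter.all false

namespace Pool.Agent.Q211.QMet

open FirstOrder FirstOrder.Language
open Pool.Agent.Helper672.Plain (LSet Mem IsOrdPair El Zermelo)
open Pool.Agent.H310Cards
open Pool.Agent.H310Top (IsCompact IsHausdorff)
open Pool.Agent.H310Metric (IsMetric)
open Pool.Agent.H635Amen (IsReals)

universe u

section

variable {M : Type u} [LSet.Structure M]

/-- `d` is a quasi-metric in the strong sense (`d a b = 0` implies `a = b`) on the set `x` with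
values in `r`, and `d` is in the model: the set of the `((a, b), c)` with `d a b = c` is an
element of the model. -/
structure IsQuasiMetric1 {x r : M} [Field (El r)] [LinearOrder (El r)]
    (d : El x → El x → El r) : Prop where
  graph : ∃ g, ∀ (a b : El x) (c : El r),
    d a b = c ↔ ∃ p q, IsOrdPair p a.1 b.1 ∧ IsOrdPair q p c.1 ∧ Mem q g
  nonneg : ∀ a b, 0 ≤ d a b
  self : ∀ a, d a a = 0
  tri : ∀ a b c, d a c ≤ d a b + d b c
  eq : ∀ a b, d a b = 0 → a = b

/-- The topology `t` on `x` is induced by a quasi-metric (in the strong sense) with values in the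
field of real numbers of the model. -/
def IsQuasiMetrizable1 (t x : M) : Prop :=
  ∃ (r : M) (_ : Field (El r)) (_ : LinearOrder (El r)) (_ : IsStrictOrderedRing (El r)),
    IsReals r ∧ ∃ d : El x → El x → El r, IsQuasiMetric1 d ∧ Induces t d

/-- `j` is countable: there is an injective function from `j` to the set of all natural numbers
of the model. -/
def IsCountable (j : M) : Prop := ∃ w e, IsOmega w ∧ IsInj e j w

/-- `f` is a function with domain `j`. -/
def IsFam (f j : M) : Prop := ∃ s, IsFun f j s

/-- `p` is the product of the sets `X i` for `i` in `j`: the set of all functions `f` with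
domain `j` such that `f i` is in `X i` for all `i`. -/
def IsProdSet (p j X : M) : Prop :=
  ∀ f, Mem f p ↔ IsFam f j ∧ ∀ i a y, App X i a → App f i y → Mem y a

/-- `s` is the product topology on the product `p`, where `T i` is the topology of the factor
with index `i` in `j`: a subset `u` of `p` is open if and only if for every `f` in `u` there are a
finite subset `k` of `j` and a function `v` with domain `k` such that `v i` is an element of
`T i` with `f i` in `v i` for all `i` in `k`, and `u` contains all `g` in `p` with `g i` in `v i`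
for all `i` in `k`. -/
def IsProdTop (s p j T : M) : Prop :=
  ∀ u, Mem u s ↔ (∀ z, Mem z u → Mem z p) ∧ ∀ f, Mem f u → ∃ k v, (∀ i, Mem i k → Mem i j) ∧
    IsFinite k ∧ IsFam v k ∧
    (∀ i b o y, App T i b → App v i o → App f i y → Mem o b ∧ Mem y o) ∧
    ∀ g, Mem g p → (∀ i o y, App v i o → App g i y → Mem y o) → Mem g u

variable (M) in
/-- The statement CPM_le(C, M) in the model `M`: every countable product of compact metrizable
spaces is metrizable. -/
def CountableProductsCompactMetrizable : Prop :=
  ∀ j X T p s : M, IsCountable j → IsFam X j → IsFam T j →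
    (∀ i x t, App X i x → App T i t → IsCompact t x ∧ IsMetrizable t x) →
    IsProdSet p j X → IsProdTop s p j T → IsMetrizable s p

variable (M) in
/-- In the model `M`, every countable product of compact Hausdorff quasi-metrizable spaces is
quasi-metrizable. -/
def CountableProductsCompactQuasiMetrizable : Prop :=
  ∀ j X T p s : M, IsCountable j → IsFam X j → IsFam T j →
    (∀ i x t, App X i x → App T i t →
      IsCompact t x ∧ IsHausdorff t x ∧ IsQuasiMetrizable1 t x) →
    IsProdSet p j X → IsProdTop s p j T → IsQuasiMetrizable1 s p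

theorem IsQuasiMetrizable1.weak {t x : M} (h : IsQuasiMetrizable1 t x) :
    IsQuasiMetrizable t x := by
  obtain ⟨r, i1, i2, i3, hr, d, hd, ht⟩ := h
  exact ⟨r, i1, i2, i3, hr, d, ⟨hd.graph, hd.nonneg, hd.self, hd.tri,
    fun a b h _ => hd.eq a b h⟩, ht⟩

theorem IsMetrizable.strong {t x : M} (h : IsMetrizable t x) : IsQuasiMetrizable1 t x := by
  obtain ⟨r, i1, i2, i3, hr, d, hd, ht⟩ := h
  refine ⟨r, i1, i2, i3, hr, d, ⟨hd.graph, fun a b => ?_, fun a => (hd.zero a a).2 rfl, hd.tri,
    fun a b h => (hd.zero a b).1 h⟩, ht⟩
  have h1 := hd.tri a b a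
  rw [(hd.zero a a).2 rfl, hd.symm b a] at h1
  linarith

theorem products [Zermelo M] (h : CountableProductsCompactMetrizable M) :
    CountableProductsCompactQuasiMetrizable M := by
  intro j X T p s hj hX hT hf hp hs
  exact (h j X T p s hj hX hT (fun i x t hx ht => ⟨(hf i x t hx ht).1,
    ZQ.metrizable_of_qm (hf i x t hx ht).1 (hf i x t hx ht).2.1 (hf i x t hx ht).2.2.weak⟩)
    hp hs).strong

end

end Pool.Agent.Q211.QMet
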